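import Pool.Agent.MMS77.StageA
import Pool.Agent.MMSA.SpecC

/-!
Stage A and the spectral lower bound, uniformly on boxes `p * n ≤ k + 1 ≤ P * n`, `1 ≤ E * n`:
all remaining conditions are about explicit numbers.
-/

set_option autoImplicit false
set_option linter.unusedSectionVars false

namespace Pool.Agent.MMS77

open Finset Pool.Agent.H59.MMS Pool.Agent.MMSA Pool.Agent.MMS36

variable {α : Type*} [DecidableEq α]

/-- Upper bound of the second constant of stage A. -/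
theorem kap2_le {K n P : ℝ} (hK : 1 ≤ K) (h3 : 3 * K ≤ n) (hn : 3 ≤ n - K)
    (hP : K ≤ P * n) (hP1 : P < 1) :
    ((cr K (n - 1) + crho K (n - 1)) / 2) ^ 2 * clam K (n - 1) ≤
      1 / 4 * (P / (1 - P)) ^ 2 * (1 / (1 - P)) ^ 2 := by
  have d0 : 0 < n - K := by linarith
  have d1 : 0 < n - 1 - K := by linarith
  have d2 : 0 < n - 1 - K - 1 := by linarith
  have d3 : 0 < n - 1 - K + 1 := by linarith
  have hn0 : 0 < n := by linarith
  have hP0 : 0 < 1 - P := by linarith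
  have hK0 : 0 < K := by linarith
  have e : ((cr K (n - 1) + crho K (n - 1)) / 2) ^ 2 * clam K (n - 1) =
      1 / 4 * ((K / (n - K)) * ((K - 1) / (n - 2 - K))) *
        (((n - 3) / (n - 1 - K)) * ((n - 3) / (n - 2 - K))) := by
    have d2' : n - 2 - K ≠ 0 := by linarith
    have d2'' : n - 1 - K - 1 ≠ 0 := by linarith
    have d1' : n - 1 - K ≠ 0 := by linarith
    have d3' : n - 1 - K + 1 ≠ 0 := by linarith
    have d0' : n - K ≠ 0 := by linarith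
    unfold cr crho clam
    have e1 : n - 1 - K - 1 = n - 2 - K := by ring
    have e2 : n - 1 - K + 1 = n - K := by ring
    rw [e1, e2]
    field_simp
    ring
  rw [e]
  have d2s : 0 < n - 2 - K := by linarith
  have a1 : K / (n - K) ≤ P / (1 - P) := by
    rw [div_le_div_iff₀ d0 hP0]
    nlinarith
  have a2 : (K - 1) / (n - 2 - K) ≤ P / (1 - P) := by
    refine le_trans ?_ a1
    rw [div_le_div_iff₀ d2s d0]
    nlinarith
  have b0 : n / (n - K) ≤ 1 / (1 - P) := by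
    rw [div_le_div_iff₀ d0 hP0]
    nlinarith
  have b1 : (n - 3) / (n - 1 - K) ≤ 1 / (1 - P) := by
    refine le_trans ?_ b0
    rw [div_le_div_iff₀ d1 d0]
    nlinarith
  have b2 : (n - 3) / (n - 2 - K) ≤ 1 / (1 - P) := by
    refine le_trans ?_ b0
    rw [div_le_div_iff₀ d2s d0]
    nlinarith
  have c1 : 0 ≤ K / (n - K) := by positivity
  have c2 : 0 ≤ (K - 1) / (n - 2 - K) := div_nonneg (by linarith) d2s.le
  have c3 : 0 ≤ (n - 3) / (n - 1 - K) := div_nonneg (by linarith) d1.le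
  have c4 : 0 ≤ (n - 3) / (n - 2 - K) := div_nonneg (by linarith) d2s.le
  have hPP : 0 ≤ P / (1 - P) := c1.trans a1
  have hQ : 0 ≤ 1 / (1 - P) := by positivity
  have m1 : (K / (n - K)) * ((K - 1) / (n - 2 - K)) ≤ (P / (1 - P)) * (P / (1 - P)) :=
    mul_le_mul a1 a2 c2 hPP
  have m2 : ((n - 3) / (n - 1 - K)) * ((n - 3) / (n - 2 - K)) ≤ (1 / (1 - P)) * (1 / (1 - P)) :=
    mul_le_mul b1 b2 c4 hQ
  have m3 := mul_le_mul m1 m2 (mul_nonneg c3 c4) (mul_nonneg hPP hPP)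
  nlinarith [m3]

/-- Upper bound of the first constant of stage A. `R` bounds `K / (n - 1 - K)`. -/
theorem kap1_le {K n R E P : ℝ} (hK : 1 ≤ K) (h3 : 3 * K ≤ n) (hn : 3 ≤ n - K)
    (hP : K ≤ P * n) (hE : 1 ≤ E * n) (hE2 : 2 * E + P < 1)
    (hR : P ≤ R * (1 - E - P)) {c : ℝ} (hc : c = 1 / 4 ∨ (R ≤ 1 / 2 ∧ c = R * (1 - R))) :
    1 + (cr K (n - 1) - crho K (n - 1)) / 2 ≤ 1 + (c + R * (E / (1 - 2 * E - P))) / 2 := by
  have d0 : 0 < n - K := by linarith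
  have d1 : 0 < n - 1 - K := by linarith
  have d2 : 0 < n - 2 - K := by linarith
  have hn0 : 0 < n := by linarith
  have hK0 : 0 < K := by linarith
  have hEp : 0 < E := by
    by_contra h
    push Not at h
    nlinarith
  have f1 : 0 < 1 - 2 * E - P := by linarith
  have f2 : 0 < 1 - E - P := by linarith
  set r := K / (n - 1 - K) with hr
  have hr0 : 0 < r := by positivity
  have hrR : r ≤ R := by
    rw [hr, div_le_iff₀ d1]
    have hR0 : 0 ≤ R := by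
      by_contra h
      push Not at h
      have : 0 < P := by
        by_contra h'
        push Not at h'
        nlinarith
      nlinarith
    have h1 : (1 - E - P) * n ≤ n - 1 - K := by nlinarith
    have h2 : R * ((1 - E - P) * n) ≤ R * (n - 1 - K) := mul_le_mul_of_nonneg_left h1 hR0
    nlinarith
  have hR0 : 0 < R := hr0.trans_le hrR
  have e : cr K (n - 1) - crho K (n - 1) =
      r * (1 - r) + r * ((n - 1 - 2 * K) / (n - 1 - K) * (1 / (n - 2 - K))) := by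
    have d2' : n - 2 - K ≠ 0 := by linarith
    have d1' : n - 1 - K ≠ 0 := by linarith
    unfold cr crho
    have e1 : n - 1 - K - 1 = n - 2 - K := by ring
    rw [e1, hr]
    field_simp
    ring
  rw [e]
  have g1 : (n - 1 - 2 * K) / (n - 1 - K) ≤ 1 := by
    rw [div_le_one d1]; linarith
  have g0 : 0 ≤ (n - 1 - 2 * K) / (n - 1 - K) := div_nonneg (by linarith) d1.le
  have g2 : 1 / (n - 2 - K) ≤ E / (1 - 2 * E - P) := by
    rw [div_le_div_iff₀ d2 f1]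
    nlinarith
  have g3 : (n - 1 - 2 * K) / (n - 1 - K) * (1 / (n - 2 - K)) ≤ E / (1 - 2 * E - P) := by
    have h1 : 0 ≤ 1 / (n - 2 - K) := by positivity
    calc _ ≤ 1 * (1 / (n - 2 - K)) := mul_le_mul_of_nonneg_right g1 h1
      _ ≤ _ := by rw [one_mul]; exact g2
  have g4 : r * ((n - 1 - 2 * K) / (n - 1 - K) * (1 / (n - 2 - K))) ≤
      R * (E / (1 - 2 * E - P)) := by
    refine mul_le_mul hrR g3 (mul_nonneg g0 (by positivity)) hR0.le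
  have g5 : r * (1 - r) ≤ c := by
    rcases hc with h | ⟨h1, h2⟩
    · rw [h]; nlinarith [sq_nonneg (r - 1 / 2)]
    · rw [h2]; nlinarith
  linarith

/-- Stage A on a box, final level (`τ = (k+1)/n`). -/
theorem gin_box_final {k n : ℕ} {V : Finset α} {x : α → ℝ} (hV : V.card = n)
    (hx : 0 ≤ ∑ i ∈ V, x i) (h3 : 3 * (k + 1) ≤ n) (hk1 : 1 ≤ k)
    (hP : av (k + 1) V (nn x) < (k + 1 : ℝ) / n)
    (P E R c κ1 κ2 s ℓ γ q0 : ℝ)
    (hLB : LB α (k + 1) (n - (k + 1)) ℓ)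
    (hPn : (k + 1 : ℝ) ≤ P * n) (hEn : 1 ≤ E * n)
    (hP1 : P < 1) (hE2 : 2 * E + P < 1) (hR : P ≤ R * (1 - E - P))
    (hc : c = 1 / 4 ∨ (R ≤ 1 / 2 ∧ c = R * (1 - R)))
    (hκ1 : 1 + (c + R * (E / (1 - 2 * E - P))) / 2 ≤ κ1)
    (hκ2 : 1 / 4 * (P / (1 - P)) ^ 2 * (1 / (1 - P)) ^ 2 ≤ κ2)
    (hs0 : 0 < s) (hs : s * P ≤ 1 - P)
    (hκ : 0 < κ1) (hq0 : κ1 * (1 - γ) ≤ ℓ * s) (hq : 0 < q0) (hqb : 1 - γ ≤ s * q0)
    (h1 : 0 ≤ (s * ℓ ^ 2 - κ2) * q0)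
    (h2 : 0 ≤ 2 * (s * ℓ ^ 2 - κ2) * q0 + (-(2 * s * ℓ * κ1) + κ2 * (1 + s)) * q0 ^ 2)
    (h3' : 0 ≤ (s * ℓ ^ 2 - κ2) * q0 + (-(2 * s * ℓ * κ1) + κ2 * (1 + s)) * q0 ^ 2 +
      (s * κ1 ^ 2 - κ2 * s) * q0 ^ 3) :
    ∀ j ∈ V, gin k V x j ≤ γ := by
  have hkR : (1 : ℝ) ≤ k := by exact_mod_cast hk1
  have h3R : 3 * ((k : ℝ) + 1) ≤ n := by exact_mod_cast h3
  have b1 := kap1_le (K := (k : ℝ) + 1) (n := n) (by linarith) h3R (by linarith) hPn hEn hE2 hR hc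
  have b2 := kap2_le (K := (k : ℝ) + 1) (n := n) (by linarith) h3R (by linarith) hPn hP1
  refine gin_le (a := 0) (b := s) (κ1 := κ1) (κ2 := κ2) (τ := (k + 1 : ℝ) / n) (ℓ := ℓ) hV hx
    (by omega) (by omega) hLB hP (b1.trans hκ1) (b2.trans hκ2)
    (hab_final (by omega) ?_) le_rfl hs0 hκ (by linarith) ?_
  · have hn0 : (0 : ℝ) ≤ n := Nat.cast_nonneg n
    have : s * ((k : ℝ) + 1) ≤ s * (P * n) := mul_le_mul_of_nonneg_left hPn hs0.le
    nlinarith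
  · exact hpoly_of (γ := γ) (c := q0) hs0 hq (by linarith) (by norm_num) (by nlinarith)
      (by nlinarith) (by nlinarith)

/-- Stage A on a box, lower level (`τ ≤ p ≤ (k+1)/n`). -/
theorem gin_box_level {k n : ℕ} {V : Finset α} {x : α → ℝ} (hV : V.card = n)
    (hx : 0 ≤ ∑ i ∈ V, x i) (h3 : 3 * (k + 1) ≤ n) (hk1 : 1 ≤ k) {τ : ℝ}
    (hP : av (k + 1) V (nn x) < τ)
    (p P E R c κ1 κ2 a b ℓ γ q0 : ℝ)
    (hLB : LB α (k + 1) (n - (k + 1)) ℓ)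
    (hpn : p * n ≤ k + 1) (hp : 0 < p) (hτp : τ ≤ p)
    (hPn : (k + 1 : ℝ) ≤ P * n) (hEn : 1 ≤ E * n)
    (hP1 : P < 1) (hE2 : 2 * E + P < 1) (hR : P ≤ R * (1 - E - P))
    (hc : c = 1 / 4 ∨ (R ≤ 1 / 2 ∧ c = R * (1 - R)))
    (hκ1 : 1 + (c + R * (E / (1 - 2 * E - P))) / 2 ≤ κ1)
    (hκ2 : 1 / 4 * (P / (1 - P)) ^ 2 * (1 / (1 - P)) ^ 2 ≤ κ2)
    (ha : a = 1 - τ / p) (hb : b = (1 - p) / p) (hb0 : 0 < b)
    (hκ : 0 < κ1) (hq0 : κ1 * (1 - γ - a) ≤ ℓ * b) (hq : 0 < q0) (hqb : 1 - γ - a ≤ b * q0)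
    (h1 : 0 ≤ 3 * (a * ℓ ^ 2) + (b * ℓ ^ 2 - 2 * a * ℓ * κ1 - κ2 * (1 - a)) * q0)
    (h2 : 0 ≤ 3 * (a * ℓ ^ 2) + 2 * (b * ℓ ^ 2 - 2 * a * ℓ * κ1 - κ2 * (1 - a)) * q0 +
      (a * κ1 ^ 2 - 2 * b * ℓ * κ1 + κ2 * (1 - a + b)) * q0 ^ 2)
    (h3' : 0 ≤ a * ℓ ^ 2 + (b * ℓ ^ 2 - 2 * a * ℓ * κ1 - κ2 * (1 - a)) * q0 +
      (a * κ1 ^ 2 - 2 * b * ℓ * κ1 + κ2 * (1 - a + b)) * q0 ^ 2 +
      (b * κ1 ^ 2 - κ2 * b) * q0 ^ 3) :
    ∀ j ∈ V, gin k V x j ≤ γ := by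
  have hkR : (1 : ℝ) ≤ k := by exact_mod_cast hk1
  have h3R : 3 * ((k : ℝ) + 1) ≤ n := by exact_mod_cast h3
  have b1 := kap1_le (K := (k : ℝ) + 1) (n := n) (by linarith) h3R (by linarith) hPn hEn hE2 hR hc
  have b2 := kap2_le (K := (k : ℝ) + 1) (n := n) (by linarith) h3R (by linarith) hPn hP1
  have ha0 : 0 ≤ a := by
    rw [ha, sub_nonneg, div_le_one hp]; exact hτp
  refine gin_le (a := a) (b := b) (κ1 := κ1) (κ2 := κ2) (τ := τ) (ℓ := ℓ) hV hx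
    (by omega) (by omega) hLB hP (b1.trans hκ1) (b2.trans hκ2)
    (by rw [ha, hb]; exact hab_level (by omega) hp hpn) ha0 hb0 hκ hq0 ?_
  exact hpoly_of (γ := γ) (c := q0) hb0 hq hqb (mul_nonneg ha0 (sq_nonneg _)) h1 h2 h3'

/-- The spectral lower bound in simple form. -/
theorem lb_spec_simple {k n : ℕ} (hk3 : k + 3 ≤ n) (hn : 2 * (k + 1) ≤ n) {p β : ℝ}
    (hpn : p * n ≤ k + 1) (hp2 : p ≤ 1 / 2)
    (hβ : β * (1 + 1 / ((n : ℝ) - 2)) ≤ p * (1 - p)) (hβ0 : 0 ≤ β) :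
    LB α (k + 1) n β := by
  refine (lb_spec (α := α) hk3 hn rfl rfl).mono ?_
  have hkR : (0 : ℝ) ≤ k := Nat.cast_nonneg k
  have h3R : (k : ℝ) + 3 ≤ n := by exact_mod_cast hk3
  have hnR : 2 * ((k : ℝ) + 1) ≤ n := by exact_mod_cast hn
  have n0 : (0 : ℝ) < n := by linarith
  have n2 : (0 : ℝ) < (n : ℝ) - 2 := by linarith
  have d0 : (0 : ℝ) < (n : ℝ) - (k + 1) := by linarith
  have d1 : (0 : ℝ) < (n : ℝ) - (k + 1) - 1 := by linarith
  set r := ((k : ℝ) + 1) / (n - (k + 1)) with hr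
  set ρ := ((k : ℝ) + 1) * k / ((n - (k + 1)) * (n - (k + 1) - 1)) with hρ
  have hr0 : 0 < r := by positivity
  have hr1 : r ≤ 1 := by rw [hr, div_le_one d0]; linarith
  have hρ0 : 0 ≤ ρ := by positivity
  have hρr : ρ ≤ r * r := by
    rw [hρ, hr, div_mul_div_comm, div_le_div_iff₀ (by positivity) (by positivity)]
    have h1 : (k : ℝ) * ((n : ℝ) - (k + 1)) ≤ (k + 1) * (n - (k + 1) - 1) := by nlinarith
    have h2 : 0 ≤ ((k : ℝ) + 1) * (n - (k + 1)) := by positivity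
    nlinarith [mul_le_mul_of_nonneg_left h1 h2]
  have e : (2 : ℝ) * (n - 1) / (n - 2) = 2 + 2 / (n - 2) := by
    field_simp
    ring
  rw [e]
  have hD : 1 - ρ + (r + ρ) * (2 + 2 / ((n : ℝ) - 2)) ≤
      (1 + r) ^ 2 + 2 * (r * (1 + r)) / ((n : ℝ) - 2) := by
    have h1 : (r + ρ) * (2 / ((n : ℝ) - 2)) ≤ (r + r * r) * (2 / ((n : ℝ) - 2)) :=
      mul_le_mul_of_nonneg_right (by linarith) (by positivity)
    have e2 : 2 * (r * (1 + r)) / ((n : ℝ) - 2) = (r + r * r) * (2 / ((n : ℝ) - 2)) := by ring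
    rw [e2]
    nlinarith
  have hD0 : 0 < 1 - ρ + (r + ρ) * (2 + 2 / ((n : ℝ) - 2)) := by
    have h0 : 0 < 2 / ((n : ℝ) - 2) := by positivity
    nlinarith
  rw [le_div_iff₀ hD0]
  -- `β D ≤ β (1+r)^2 (1 + 1/(n-2)) ≤ r`
  have h5 : 2 * (r * (1 + r)) / ((n : ℝ) - 2) ≤ (1 + r) ^ 2 * (1 / ((n : ℝ) - 2)) := by
    rw [div_eq_mul_one_div]
    refine mul_le_mul_of_nonneg_right ?_ (by positivity)
    nlinarith
  have h6 : β * (1 - ρ + (r + ρ) * (2 + 2 / ((n : ℝ) - 2))) ≤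
      β * ((1 + r) ^ 2 * (1 + 1 / ((n : ℝ) - 2))) := by
    refine mul_le_mul_of_nonneg_left ?_ hβ0
    nlinarith
  refine h6.trans ?_
  have h7 : β * ((1 + r) ^ 2 * (1 + 1 / ((n : ℝ) - 2))) ≤ (1 + r) ^ 2 * (p * (1 - p)) := by
    nlinarith [mul_le_mul_of_nonneg_left hβ (sq_nonneg (1 + r))]
  refine h7.trans ?_
  set P := ((k : ℝ) + 1) / n with hP
  have hpP : p ≤ P := by rw [hP, le_div_iff₀ n0]; exact hpn
  have hP2 : P ≤ 1 / 2 := by rw [hP, div_le_div_iff₀ n0 (by norm_num)]; linarith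
  have h8 : p * (1 - p) ≤ P * (1 - P) := by nlinarith
  have h9 : (1 + r) ^ 2 * (P * (1 - P)) = r := by
    rw [hr, hP]
    field_simp
    ring
  calc (1 + r) ^ 2 * (p * (1 - p)) ≤ (1 + r) ^ 2 * (P * (1 - P)) :=
        mul_le_mul_of_nonneg_left h8 (sq_nonneg _)
    _ = r := h9

end Pool.Agent.MMS77
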