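import Pool.Agent.H59.MMS.Basic

/-!
Transport of the lower-bound property between types, and the block lemma: the bound for
`(n, k)` implies the bound for `(n t, k t)`.
-/

set_option autoImplicit false
set_option linter.unusedSectionVars false

namespace Pool.Agent.MMS77

open Finset Pool.Agent.H59.MMS

variable {α β : Type*} [DecidableEq α] [DecidableEq β]

theorem av_map (f : α ↪ β) (k : ℕ) (V : Finset α) (F : Finset β → ℝ) :
    av k (V.map f) F = av k V (fun S => F (S.map f)) := by
  unfold av
  rw [Finset.powersetCard_map, Finset.sum_map, Finset.card_map]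
  rfl

theorem nn_map (f : α ↪ β) (x : β → ℝ) (S : Finset α) :
    nn x (S.map f) = nn (fun i => x (f i)) S := by
  unfold nn
  rw [Finset.sum_map]

/-- The bound passes from `Fin m` to any type. -/
theorem LB.ofFin {k m : ℕ} {ℓ : ℝ} (h : LB (Fin m) k m ℓ) : LB α k m ℓ := by
  intro V x hV hx
  let e := V.equivFinOfCardEq hV
  let f : Fin m ↪ α := e.symm.toEmbedding.trans (Function.Embedding.subtype _)
  have hf : (univ : Finset (Fin m)).map f = V := by
    ext a
    simp only [Finset.mem_map, Finset.mem_univ, true_and]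
    constructor
    · rintro ⟨i, rfl⟩
      exact (e.symm i).2
    · intro ha
      refine ⟨e ⟨a, ha⟩, ?_⟩
      show ((e.symm (e ⟨a, ha⟩) : V) : α) = a
      rw [Equiv.symm_apply_apply]
  have h1 := h univ (fun i => x (f i)) (by simp) (by
    rw [← hf, Finset.sum_map] at hx
    exact hx)
  rw [← hf, av_map]
  simpa only [nn_map] using h1

/-- The bound passes from a type with an embedding of `Fin m` to `Fin m`. -/
theorem LB.toFin {k m : ℕ} {ℓ : ℝ} (f : Fin m ↪ α) (h : LB α k m ℓ) : LB (Fin m) k m ℓ := by
  intro V x hV hx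
  have hVu : V = univ := by
    rw [← Finset.card_eq_iff_eq_univ, hV, Fintype.card_fin]
  subst hVu
  have hg : ∀ i, Function.extend f x 0 (f i) = x i := fun i => f.injective.extend_apply x 0 i
  have h1 := h ((univ : Finset (Fin m)).map f) (Function.extend f x 0) (by simp) (by
    rw [Finset.sum_map]
    simpa only [hg] using hx)
  rw [av_map] at h1
  simpa only [nn_map, hg] using h1

/-- The bound passes between any two types, the first one infinite. -/
theorem LB.transport {k m : ℕ} {ℓ : ℝ} [Infinite β] (h : LB β k m ℓ) : LB α k m ℓ :=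
  LB.ofFin (LB.toFin ((Fin.valEmbedding).trans (Infinite.natEmbedding β)) h)

/-- Averaging over all permutations. -/
theorem perm_avg [Fintype β] (A : Finset β) (F : Finset β → ℝ) :
    (∑ σ : Equiv.Perm β, F (A.map σ.toEmbedding)) / (Fintype.card (Equiv.Perm β) : ℝ) =
      av A.card univ F := by
  have hfib : ∀ S ∈ (univ : Finset β).powersetCard A.card,
      (Finset.univ.filter (fun σ : Equiv.Perm β => A.map σ.toEmbedding = S)).card =
      (Finset.univ.filter (fun σ : Equiv.Perm β => A.map σ.toEmbedding = A)).card := by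
    intro S hS
    rw [Finset.mem_powersetCard] at hS
    obtain ⟨τ, hτ⟩ : ∃ τ : Equiv.Perm β, A.map τ.toEmbedding = S := by
      have e : {x // x ∈ A} ≃ {x // x ∈ S} := Finset.equivOfCardEq hS.2.symm
      refine ⟨e.extendSubtype, ?_⟩
      refine Finset.eq_of_subset_of_card_le ?_ (by rw [Finset.card_map, hS.2])
      intro b hb
      obtain ⟨a, ha, rfl⟩ := Finset.mem_map.1 hb
      exact e.extendSubtype_mem a ha
    refine (Finset.card_bij (fun σ _ => τ * σ) ?_ ?_ ?_).symm
    · intro σ hσ
      simp only [Finset.mem_filter, Finset.mem_univ, true_and] at hσ ⊢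
      rw [← hτ]
      conv_rhs => rw [← hσ]
      rw [Finset.map_map]
      rfl
    · intro σ _ σ' _ h
      exact mul_left_cancel h
    · intro σ hσ
      simp only [Finset.mem_filter, Finset.mem_univ, true_and] at hσ
      refine ⟨τ⁻¹ * σ, ?_, by simp⟩
      simp only [Finset.mem_filter, Finset.mem_univ, true_and]
      have h1 : A.map (τ⁻¹ * σ).toEmbedding = (A.map σ.toEmbedding).map (τ⁻¹).toEmbedding := by
        rw [Finset.map_map]; rfl
      rw [h1, hσ, ← hτ, Finset.map_map]
      ext b
      simp only [Finset.mem_map]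
      constructor
      · rintro ⟨a, ha, rfl⟩
        simpa using ha
      · intro hb
        exact ⟨b, hb, by simp⟩
  set c := (Finset.univ.filter (fun σ : Equiv.Perm β => A.map σ.toEmbedding = A)).card with hc
  have hmaps : ∀ σ ∈ (univ : Finset (Equiv.Perm β)),
      A.map σ.toEmbedding ∈ (univ : Finset β).powersetCard A.card := by
    intro σ _
    rw [Finset.mem_powersetCard]
    exact ⟨Finset.subset_univ _, by rw [Finset.card_map]⟩
  have hsum : ∀ G : Finset β → ℝ, (∑ σ : Equiv.Perm β, G (A.map σ.toEmbedding)) =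
      c * ∑ S ∈ (univ : Finset β).powersetCard A.card, G S := by
    intro G
    rw [← Finset.sum_fiberwise_of_maps_to hmaps, Finset.mul_sum]
    refine Finset.sum_congr rfl fun S hS => ?_
    rw [Finset.sum_congr rfl (g := fun _ => G S)]
    · rw [Finset.sum_const, nsmul_eq_mul, hfib S hS]
    · intro σ hσ
      rw [(Finset.mem_filter.1 hσ).2]
  have h1 := hsum (fun _ => 1)
  rw [Finset.sum_const, Finset.sum_const, nsmul_eq_mul, nsmul_eq_mul, mul_one, mul_one,
    Finset.card_univ, Finset.card_powersetCard] at h1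
  rw [hsum F, h1]
  unfold av
  have hc0 : (c : ℝ) ≠ 0 := by
    have : 0 < c := by
      rw [hc]
      refine Finset.card_pos.2 ⟨1, ?_⟩
      simp only [Finset.mem_filter, Finset.mem_univ, true_and]
      ext b
      simp only [Finset.mem_map_equiv]
      rfl
    exact_mod_cast this.ne'
  rw [mul_div_mul_left _ _ hc0]

/-- The block lemma. -/
theorem LB.block {k n t : ℕ} {ℓ : ℝ} (h : LB (Fin n) k n ℓ) (hk : k ≤ n) :
    LB α (k * t) (n * t) ℓ := by
  refine LB.ofFin ?_
  intro V x hV hx
  have hVu : V = univ := by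
    rw [← Finset.card_eq_iff_eq_univ, hV, Fintype.card_fin]
  subst hVu
  let g : Fin n × Fin t ↪ Fin (n * t) := finProdFinEquiv.toEmbedding
  have hg : (univ : Finset (Fin n × Fin t)).map g = univ := by
    simp [g]
  set z : Fin n × Fin t → ℝ := fun p => x (g p) with hz
  have hz0 : 0 ≤ ∑ p, z p := by
    rw [← hg, Finset.sum_map] at hx
    exact hx
  have hav : av (k * t) univ (nn x) = av (k * t) univ (nn z) := by
    rw [← hg, av_map]
    simp only [nn_map, hz]
  rw [hav]
  -- one permutation
  have hone : ∀ σ : Equiv.Perm (Fin n × Fin t),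
      ℓ ≤ av k (univ : Finset (Fin n))
        (fun I => nn z ((I ×ˢ (univ : Finset (Fin t))).map σ.toEmbedding)) := by
    intro σ
    have h1 := h univ (fun i => ∑ j, z (σ (i, j))) (by simp) (by
      rw [← Finset.sum_product', Finset.univ_product_univ]
      rw [show ∑ p : Fin n × Fin t, z (σ (p.1, p.2)) = ∑ p, z (σ p) from rfl]
      rw [Equiv.sum_comp σ z]
      exact hz0)
    refine h1.trans (le_of_eq ?_)
    refine av_congr fun I _ _ => ?_
    unfold nn
    rw [Finset.sum_map, Finset.sum_product]
    rfl
  have hN : (0 : ℝ) < (Fintype.card (Equiv.Perm (Fin n × Fin t)) : ℝ) := by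
    exact_mod_cast Fintype.card_pos
  have h2 : ℓ ≤ (∑ σ : Equiv.Perm (Fin n × Fin t), av k (univ : Finset (Fin n))
        (fun I => nn z ((I ×ˢ (univ : Finset (Fin t))).map σ.toEmbedding))) /
        (Fintype.card (Equiv.Perm (Fin n × Fin t)) : ℝ) := by
    rw [le_div_iff₀ hN, mul_comm, ← nsmul_eq_mul, ← Finset.card_univ]
    exact Finset.card_nsmul_le_sum _ _ _ fun σ _ => hone σ
  refine h2.trans (le_of_eq ?_)
  have h3 : (∑ σ : Equiv.Perm (Fin n × Fin t), av k (univ : Finset (Fin n))
        (fun I => nn z ((I ×ˢ (univ : Finset (Fin t))).map σ.toEmbedding))) /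
        (Fintype.card (Equiv.Perm (Fin n × Fin t)) : ℝ) =
      av k (univ : Finset (Fin n)) (fun I => (∑ σ : Equiv.Perm (Fin n × Fin t),
        nn z ((I ×ˢ (univ : Finset (Fin t))).map σ.toEmbedding)) /
        (Fintype.card (Equiv.Perm (Fin n × Fin t)) : ℝ)) := by
    unfold av
    rw [← Finset.sum_div, Finset.sum_comm, ← Finset.sum_div, div_div, div_div, mul_comm]
  rw [h3]
  rw [av_congr (G := fun _ => av (k * t) univ (nn z))]
  · rw [av_const (by simpa using hk)]
  · intro I _ hI
    rw [perm_avg]
    rw [Finset.card_product, hI, Finset.card_univ, Fintype.card_fin]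

end Pool.Agent.MMS77
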