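import Pool.Agent.H59.MMS.Chain
import Pool.Agent.MMS77.Trans

/-!
Reduction of the Manickam-Miklos-Singhi conjecture to coprime pairs `(4k+j, k)` with `0 < j < k`,
with the bound for all smaller ground sets available.
-/

set_option autoImplicit false
set_option linter.unusedSectionVars false

namespace Pool.Agent.MMS77

open Finset Pool.Agent.H59.MMS

variable {α : Type*} [DecidableEq α]

/-- The bound for the pair `(n, k)`, for the type of real numbers. -/
def Good (n k : ℕ) : Prop := LB ℝ k n ((k : ℝ) / n)

theorem Good.lb {n k : ℕ} (h : Good n k) : LB α k n ((k : ℝ) / n) := LB.transport h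

theorem Good.of_lb {n k : ℕ} (f : Fin n ↪ α) (h : LB α k n ((k : ℝ) / n)) : Good n k :=
  LB.ofFin (LB.toFin f h)

theorem Good.one {n : ℕ} (hn : 1 ≤ n) : Good n 1 := by
  have := lb_one (α := ℝ) n hn
  unfold Good
  simpa using this

/-- The Manickam-Singhi step. -/
theorem Good.step {n k : ℕ} (hk : 1 ≤ k) (hn : 2 * k ≤ n) (h : Good (n - k) k) : Good n k := by
  obtain ⟨m, rfl⟩ : ∃ m, k = m + 1 := ⟨k - 1, by omega⟩
  unfold Good at h ⊢
  push_cast
  refine LB.mms_step hn ?_
  rw [Nat.cast_sub (by omega)] at h
  push_cast at h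
  exact h

/-- Multiples. -/
theorem Good.mul {n k t : ℕ} (hk : k ≤ n) (ht : 1 ≤ t) (h : Good n k) :
    Good (n * t) (k * t) := by
  have h1 : LB (Fin n) k n ((k : ℝ) / n) := h.lb
  have h2 : LB ℝ (k * t) (n * t) ((k : ℝ) / n) := LB.block h1 hk
  unfold Good
  refine h2.mono (le_of_eq ?_)
  push_cast
  have : (t : ℝ) ≠ 0 := by positivity
  rw [mul_div_mul_right _ _ this]

/-- All pairs from the pairs in one window. -/
theorem good_of_window {k : ℕ} (hk : 1 ≤ k) (h : ∀ m, 4 * k ≤ m → m < 5 * k → Good m k) :
    ∀ n, 4 * k ≤ n → Good n k := by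
  intro n
  induction n using Nat.strong_induction_on with
  | _ n ih =>
    intro hn
    rcases Nat.lt_or_ge n (5 * k) with h5 | h5
    · exact h n hn h5
    · exact Good.step hk (by omega) (ih (n - k) (by omega) (by omega))

/-- A pair with `4k ≤ n < 5k` reduces to a coprime pair. -/
theorem good_of_coprime
    (h : ∀ k j : ℕ, 0 < j → j < k → Nat.Coprime j k → Good (4 * k + j) k)
    {k n : ℕ} (hk : 1 ≤ k) (h4 : 4 * k ≤ n) (h5 : n < 5 * k) : Good n k := by
  obtain ⟨g, k', n', hg, hcop, hke, hne⟩ : ∃ g k' n', 0 < g ∧ Nat.Coprime n' k' ∧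
      k = k' * g ∧ n = n' * g := by
    obtain ⟨g, k', n', hg, hcop, h1, h2⟩ := Nat.exists_coprime' (m := k) (n := n)
      (Nat.gcd_pos_of_pos_left _ hk)
    exact ⟨g, k', n', hg, hcop.symm, h1, h2⟩
  subst hke hne
  have hk' : 1 ≤ k' := by
    rcases Nat.eq_zero_or_pos k' with h0 | h0
    · subst h0; omega
    · exact h0
  have h4' : 4 * k' ≤ n' := by
    by_contra hc
    push Not at hc
    have : n' * g < 4 * k' * g := Nat.mul_lt_mul_of_pos_right hc hg
    rw [mul_assoc] at this
    omega
  have h5' : n' < 5 * k' := by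
    by_contra hc
    push Not at hc
    have : 5 * k' * g ≤ n' * g := Nat.mul_le_mul_right g hc
    rw [mul_assoc] at this
    omega
  refine Good.mul (by omega) hg ?_
  rcases Nat.eq_or_lt_of_le hk' with h1 | h1
  · rw [← h1]
    exact Good.one (by omega)
  · obtain ⟨j, rfl⟩ : ∃ j, n' = 4 * k' + j := ⟨n' - 4 * k', by omega⟩
    have hcop' : Nat.Coprime j k' := by
      rwa [Nat.coprime_mul_right_add_left] at hcop
    refine h k' j ?_ (by omega) hcop'
    rcases Nat.eq_zero_or_pos j with h0 | h0
    · subst h0
      rw [Nat.coprime_zero_left] at hcop'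
      omega
    · exact h0

/-- Every pair from the coprime pairs in the window. -/
theorem good_all (h : ∀ k j : ℕ, 0 < j → j < k → Nat.Coprime j k → Good (4 * k + j) k) :
    ∀ n k : ℕ, 0 < k → 4 * k ≤ n → Good n k := fun n _ hk hn =>
  good_of_window hk (fun _ h4 h5 => good_of_coprime h hk h4 h5) n hn

/-- The same with the bound for all smaller ground sets as an extra hypothesis. -/
theorem good_all_min (h : ∀ k j : ℕ, 0 < j → j < k → Nat.Coprime j k →
      (∀ n' k' : ℕ, 0 < k' → 4 * k' ≤ n' → n' < 4 * k + j → Good n' k') →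
      Good (4 * k + j) k) :
    ∀ n k : ℕ, 0 < k → 4 * k ≤ n → Good n k := by
  intro n
  induction n using Nat.strong_induction_on with
  | _ n ih =>
    intro k hk hn
    rcases Nat.lt_or_ge n (5 * k) with h5 | h5
    · obtain ⟨g, k', n', hg, hcop, hke, hne⟩ : ∃ g k' n', 0 < g ∧ Nat.Coprime n' k' ∧
          k = k' * g ∧ n = n' * g := by
        obtain ⟨g, k', n', hg, hcop, h1, h2⟩ := Nat.exists_coprime' (m := k) (n := n)
          (Nat.gcd_pos_of_pos_left _ hk)
        exact ⟨g, k', n', hg, hcop.symm, h1, h2⟩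
      rcases Nat.eq_or_lt_of_le (show 1 ≤ g from hg) with hg1 | hg1
      · subst hg1
        simp only [mul_one] at hke hne
        subst hke hne
        rcases Nat.eq_or_lt_of_le (show 1 ≤ k from hk) with h1 | h1
        · rw [← h1]
          exact Good.one (by omega)
        · obtain ⟨j, rfl⟩ : ∃ j, n = 4 * k + j := ⟨n - 4 * k, by omega⟩
          have hcop' : Nat.Coprime j k := by
            rwa [Nat.coprime_mul_right_add_left] at hcop
          refine h k j ?_ (by omega) hcop' (fun n' k' h1 h2 h3 => ih n' h3 k' h1 h2)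
          rcases Nat.eq_zero_or_pos j with h0 | h0
          · subst h0
            rw [Nat.coprime_zero_left] at hcop'
            omega
          · exact h0
      · subst hke hne
        have hk' : 0 < k' := by
          rcases Nat.eq_zero_or_pos k' with h0 | h0
          · subst h0; omega
          · exact h0
        have h4' : 4 * k' ≤ n' := by
          by_contra hc
          push Not at hc
          have : n' * g < 4 * k' * g := Nat.mul_lt_mul_of_pos_right hc hg
          rw [mul_assoc] at this
          omega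
        refine Good.mul (by omega) hg (ih n' ?_ k' hk' h4')
        have hn' : 0 < n' := by omega
        calc n' = n' * 1 := (mul_one _).symm
          _ < n' * g := Nat.mul_lt_mul_of_pos_left hg1 hn'
    · exact Good.step hk (by omega) (ih (n - k) (by omega) k hk (by omega))

/-- The statement of the conjecture for sets of real numbers. -/
theorem mms_of_good (h : ∀ n k : ℕ, 0 < k → 4 * k ≤ n → Good n k) :
    ∀ (n k : ℕ), 0 < k → 4 * k ≤ n →
      ∀ A : Finset ℝ, A.card = n → (∑ x ∈ A, x) = 0 →
        (n - 1).choose (k - 1) ≤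
          ((A.powersetCard k).filter (fun B => 0 ≤ ∑ x ∈ B, x)).card := by
  intro n k hk hn A hA hs
  exact count_of_lb hk (by omega) (h n k hk hn) A (fun x => x) hA hs.ge

/-- The final form: it suffices to prove the bound for normalised weights, for coprime pairs in
the window, given the bound for all smaller ground sets. -/
theorem mms_of_min (h : ∀ k j : ℕ, 0 < j → j < k → Nat.Coprime j k →
      (∀ n' k' : ℕ, 0 < k' → 4 * k' ≤ n' → n' < 4 * k + j → Good n' k') →
      ∀ (V : Finset ℝ) (x : ℝ → ℝ), V.card = 4 * k + j → ∑ i ∈ V, x i = 0 →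
        ∑ i ∈ V, x i ^ 2 = 1 → (k : ℝ) / (4 * k + j) ≤ av k V (nn x)) :
    ∀ (n k : ℕ), 0 < k → 4 * k ≤ n →
      ∀ A : Finset ℝ, A.card = n → (∑ x ∈ A, x) = 0 →
        (n - 1).choose (k - 1) ≤
          ((A.powersetCard k).filter (fun B => 0 ≤ ∑ x ∈ B, x)).card := by
  refine mms_of_good (good_all_min fun k j hj hjk hcop hmin => ?_)
  refine LB.of_normalized (by omega) (by omega) ?_ ?_
  · rw [div_le_one (by positivity)]
    push_cast
    have : (0 : ℝ) ≤ j := by positivity
    have : (0 : ℝ) ≤ k := by positivity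
    linarith
  · intro V x hV h0 h1
    have := h k j hj hjk hcop hmin V x hV h0 h1
    push_cast
    exact this

end Pool.Agent.MMS77
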