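import Pool.Agent.MMS77.Reduce

/-!
Conditional lower bounds available in a minimal counterexample: sets containing `A` and avoiding
`B`, when the drift is nonnegative.
-/

set_option autoImplicit false
set_option linter.unusedSectionVars false

namespace Pool.Agent.MMS77

open Finset Pool.Agent.H59.MMS

variable {α : Type*} [DecidableEq α]

/-- The general conditional bound. -/
theorem cond_ge {V A B : Finset α} {x : α → ℝ} {n k a b : ℕ} (hV : V.card = n)
    (hAc : A.card = a) (hBc : B.card = b) (hA : A ⊆ V) (hB : B ⊆ V) (hAB : Disjoint A B)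
    (ha : a < k) (hn : k + b < n) (hgood : Good (n - a - b) (k - a))
    (hx : 0 ≤ ∑ i ∈ V, x i)
    (hdr : ((k : ℝ) - a) * ∑ i ∈ B, x i ≤ ((n : ℝ) - k - b) * ∑ i ∈ A, x i) :
    ((k : ℝ) - a) / ((n : ℝ) - a - b) ≤
      av (k - a) (V \ (A ∪ B)) (fun T => nn x (A ∪ T)) := by
  have hsub : A ∪ B ⊆ V := Finset.union_subset hA hB
  have hcard : (V \ (A ∪ B)).card = n - a - b := by
    rw [Finset.card_sdiff_of_subset hsub, Finset.card_union_of_disjoint hAB, hV, hAc, hBc]
    omega
  have hka : (0 : ℝ) < (k : ℝ) - a := by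
    have : (a : ℝ) < k := by exact_mod_cast ha
    linarith
  set c : ℝ := (∑ i ∈ A, x i) / ((k : ℝ) - a) with hc
  have hcA : ((k : ℝ) - a) * c = ∑ i ∈ A, x i := by
    rw [hc]; field_simp
  have h1 : LB α (k - a) (n - a - b) (((k - a : ℕ) : ℝ) / ((n - a - b : ℕ) : ℝ)) := hgood.lb
  have e1 : ((k - a : ℕ) : ℝ) = (k : ℝ) - a := by rw [Nat.cast_sub (by omega)]
  have e2 : ((n - a - b : ℕ) : ℝ) = (n : ℝ) - a - b := by
    rw [Nat.cast_sub (by omega), Nat.cast_sub (by omega)]
  rw [e1, e2] at h1
  have hsum1 := Finset.sum_sdiff hsub (f := x)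
  rw [Finset.sum_union hAB] at hsum1
  have h2 := h1 (V \ (A ∪ B)) (fun i => x i + c) hcard (by
    rw [Finset.sum_add_distrib, Finset.sum_const, nsmul_eq_mul, hcard, e2]
    have e3 : ((n : ℝ) - a - b) * c = ((n : ℝ) - k - b) * c + ((k : ℝ) - a) * c := by ring
    rw [e3, hcA]
    have h4 : ∑ i ∈ B, x i ≤ ((n : ℝ) - k - b) * c := by
      rw [← hcA] at hdr
      have : ((k : ℝ) - a) * ∑ i ∈ B, x i ≤ ((k : ℝ) - a) * (((n : ℝ) - k - b) * c) := by
        linarith
      exact le_of_mul_le_mul_left this hka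
    linarith)
  refine h2.trans (le_of_eq ?_)
  refine av_congr fun T hT hTc => ?_
  have hAT : Disjoint A T := by
    rw [Finset.disjoint_left]
    intro i hi hiT
    have := hT hiT
    rw [Finset.mem_sdiff, Finset.mem_union] at this
    exact this.2 (Or.inl hi)
  unfold nn
  rw [Finset.sum_union hAT, Finset.sum_add_distrib, Finset.sum_const, nsmul_eq_mul, hTc, e1, hcA,
    add_comm]

/-- Avoiding a nonpositive element. -/
theorem cond_avoid {V : Finset α} {x : α → ℝ} {n k : ℕ} {i : α} (hV : V.card = n) (hi : i ∈ V)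
    (hk : 1 ≤ k) (hn : k + 1 < n) (hgood : Good (n - 1) k) (hx : 0 ≤ ∑ i ∈ V, x i)
    (hxi : x i ≤ 0) : (k : ℝ) / ((n : ℝ) - 1) ≤ av k (V.erase i) (nn x) := by
  have h := cond_ge (A := ∅) (B := {i}) (a := 0) (b := 1) (k := k) hV (by simp) (by simp)
    (by simp) (by simpa using hi) (by simp) (by omega) hn (by simpa using hgood) hx
    (by
      have : (0 : ℝ) ≤ k := by positivity
      simp only [Finset.sum_singleton, Finset.sum_empty, mul_zero, Nat.cast_zero, sub_zero]
      nlinarith)
  have e : V \ (∅ ∪ {i}) = V.erase i := by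
    rw [Finset.empty_union, Finset.sdiff_singleton_eq_erase]
  rw [e] at h
  simpa using h

/-- Containing a nonnegative element. -/
theorem cond_contain {V : Finset α} {x : α → ℝ} {n k : ℕ} {i : α} (hV : V.card = n) (hi : i ∈ V)
    (hk : 1 ≤ k) (hn : k + 1 < n) (hgood : Good (n - 1) k) (hx : 0 ≤ ∑ i ∈ V, x i)
    (hxi : 0 ≤ x i) :
    (k : ℝ) / ((n : ℝ) - 1) ≤ av k (V.erase i) (fun T => nn x (insert i T)) := by
  have h := cond_ge (A := {i}) (B := ∅) (a := 1) (b := 0) (k := k + 1) hV (by simp) (by simp)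
    (by simpa using hi) (by simp) (by simp) (by omega) (by omega) (by simpa using hgood) hx
    (by
      have : ((k : ℝ) + 1) < n := by exact_mod_cast hn
      simp only [Finset.sum_singleton, Finset.sum_empty, mul_zero, Nat.cast_zero, sub_zero]
      push_cast
      nlinarith)
  have e : V \ ({i} ∪ ∅) = V.erase i := by
    rw [Finset.union_empty, Finset.sdiff_singleton_eq_erase]
  rw [e] at h
  simpa [← Finset.insert_eq] using h

/-- Containing `i` and avoiding `j`. -/
theorem cond_pair {V : Finset α} {x : α → ℝ} {n k : ℕ} {i j : α} (hV : V.card = n) (hi : i ∈ V)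
    (hj : j ∈ V) (hij : i ≠ j) (hk : 1 ≤ k) (hn : k + 2 < n) (hgood : Good (n - 2) k)
    (hx : 0 ≤ ∑ i ∈ V, x i) (hxij : (k : ℝ) * x j ≤ ((n : ℝ) - (k + 1) - 1) * x i) :
    (k : ℝ) / ((n : ℝ) - 2) ≤ av k ((V.erase i).erase j) (fun T => nn x (insert i T)) := by
  have h := cond_ge (A := {i}) (B := {j}) (a := 1) (b := 1) (k := k + 1) hV (by simp) (by simp)
    (by simpa using hi) (by simpa using hj) (by simpa using hij) (by omega) (by omega)
    (by simpa [Nat.sub_sub] using hgood) hx
    (by
      simp only [Finset.sum_singleton]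
      push_cast
      linarith)
  have e : V \ ({i} ∪ {j}) = (V.erase i).erase j := by
    ext z
    simp only [Finset.mem_sdiff, Finset.mem_union, Finset.mem_singleton, Finset.mem_erase]
    tauto
  rw [e] at h
  have e2 : (((k + 1 : ℕ) : ℝ) - (1 : ℕ)) / ((n : ℝ) - (1 : ℕ) - (1 : ℕ)) =
      (k : ℝ) / ((n : ℝ) - 2) := by
    push_cast
    congr 1 <;> ring
  rw [e2] at h
  simpa [← Finset.insert_eq] using h

/-- Avoiding two elements with nonpositive sum. -/
theorem cond_avoid_two {V : Finset α} {x : α → ℝ} {n k : ℕ} {i j : α} (hV : V.card = n)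
    (hi : i ∈ V) (hj : j ∈ V) (hij : i ≠ j) (hk : 1 ≤ k) (hn : k + 2 < n)
    (hgood : Good (n - 2) k) (hx : 0 ≤ ∑ i ∈ V, x i) (hxij : x i + x j ≤ 0) :
    (k : ℝ) / ((n : ℝ) - 2) ≤ av k ((V.erase i).erase j) (nn x) := by
  have h := cond_ge (A := ∅) (B := {i, j}) (a := 0) (b := 2) (k := k) hV (by simp)
    (Finset.card_pair hij) (by simp) (by
      intro z hz
      simp only [Finset.mem_insert, Finset.mem_singleton] at hz
      rcases hz with rfl | rfl
      · exact hi
      · exact hj) (by simp) (by omega) hn (by simpa using hgood) hx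
    (by
      have : (0 : ℝ) ≤ k := by positivity
      rw [Finset.sum_pair hij]
      simp only [Finset.sum_empty, mul_zero, Nat.cast_zero, sub_zero]
      nlinarith)
  have e : V \ (∅ ∪ {i, j}) = (V.erase i).erase j := by
    ext z
    simp only [Finset.mem_sdiff, Finset.mem_union, Finset.mem_singleton, Finset.mem_erase,
      Finset.mem_insert, Finset.notMem_empty, false_or]
    tauto
  rw [e] at h
  simpa using h

end Pool.Agent.MMS77
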