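import Pool.Agent.MMS77.Quad

/-!
The mixing inequality for the largest element. If `x i` is the largest weight then a good
`(k+1)`-set `T` avoiding `i` has no bad `k`-subset `T.erase j` (bad together with `i`), hence the
covariance of the two functions on the `(k+1)`-sets is known exactly, and only the numerical range
of the disjointness operator is needed: no moments.
-/

set_option autoImplicit false
set_option linter.unusedSectionVars false

namespace Pool.Agent.MMS77

open Finset Pool.Agent.H59.MMS Pool.Agent.MMSA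

variable {α : Type*} [DecidableEq α]

/-- Average of `f` over the `k`-subsets of a `(k+1)`-set. -/
noncomputable def upf (k : ℕ) (f : Finset α → ℝ) (T : Finset α) : ℝ :=
  (∑ j ∈ T, f (T.erase j)) / ((k : ℝ) + 1)

theorem av_upf {k : ℕ} {W : Finset α} (hW : k + 1 ≤ W.card) (f : Finset α → ℝ) :
    av (k + 1) W (upf k f) = av k W f := by
  have h1 : av (k + 1) W (upf k f) = ((k : ℝ) + 1)⁻¹ *
      av (k + 1) W (fun T => ∑ j ∈ T, (fun _ S => f S) j (T.erase j)) := by
    rw [← av_mul]
    refine av_congr fun T _ _ => ?_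
    unfold upf
    rw [div_eq_inv_mul]
  rw [h1, av_peel hW (fun _ S => f S), ← av_erase_avg hW f]
  have hk : (k : ℝ) + 1 ≠ 0 := by positivity
  field_simp

theorem disj_upf {k : ℕ} {M : Finset α} (hM : 2 * (k + 1) ≤ M.card) (f A : Finset α → ℝ) :
    av k M (fun S => f S * av (k + 1) (M \ S) A) =
      av (k + 1) M (fun T => upf k f T * av (k + 1) (M \ T) A) := by
  rw [av_disj_swap k (k + 1) M f A (by omega), av_disj_swap (k + 1) (k + 1) M (upf k f) A (by omega)]
  refine av_congr fun T hT hTc => ?_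
  rw [av_upf]
  rw [Finset.card_sdiff_of_subset hT, hTc]
  omega

/-- The adjoint of the averaging operator. -/
theorem upf_adj {k : ℕ} {M : Finset α} (hM : k + 1 ≤ M.card) (f H : Finset α → ℝ) :
    av (k + 1) M (fun T => upf k f T * H T) =
      av k M (fun S => f S * ((∑ x ∈ M \ S, H (insert x S)) / ((M.card : ℝ) - k))) := by
  have h1 : av (k + 1) M (fun T => upf k f T * H T) = ((k : ℝ) + 1)⁻¹ *
      av (k + 1) M (fun T => ∑ j ∈ T, (fun j S => f S * H (insert j S)) j (T.erase j)) := by
    rw [← av_mul]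
    refine av_congr fun T _ _ => ?_
    unfold upf
    rw [div_eq_inv_mul, mul_assoc, Finset.sum_mul]
    congr 1
    refine Finset.sum_congr rfl fun j hj => ?_
    simp only [Finset.insert_erase hj]
  have h2 := av_avoid hM (fun j S => f S * H (insert j S))
  have hc : (M.card : ℝ) ≠ 0 := by
    have : 0 < M.card := by omega
    positivity
  have hk : (k : ℝ) + 1 ≠ 0 := by positivity
  rw [h1, av_peel hM (fun j S => f S * H (insert j S))]
  have h3 : ((k : ℝ) + 1)⁻¹ * (((k : ℝ) + 1) / (M.card : ℝ) *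
      ∑ i ∈ M, av k (M.erase i) ((fun j S => f S * H (insert j S)) i)) =
      (∑ i ∈ M, av k (M.erase i) ((fun j S => f S * H (insert j S)) i)) / M.card := by
    field_simp
  rw [h3, h2, div_eq_inv_mul, ← av_mul]
  refine av_congr fun S _ _ => ?_
  rw [← Finset.mul_sum]
  ring

/-- The variance of the averaged function. -/
theorem var_upf {k : ℕ} {M : Finset α} (hM : k + 2 ≤ M.card) (f : Finset α → ℝ) :
    av (k + 1) M (fun T => upf k f T ^ 2) - av k M f ^ 2 ≤
      ((k : ℝ) * ((M.card : ℝ) - k - 1) / ((k + 1) * ((M.card : ℝ) - k))) *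
        (av k M (fun S => f S ^ 2) - av k M f ^ 2) := by
  set w := av k M f with hw
  set B := upf k f with hB
  set D : Finset α → ℝ := fun S => (∑ x ∈ M \ S, B (insert x S)) / ((M.card : ℝ) - k) with hD
  have hMr : (k : ℝ) + 2 ≤ M.card := by exact_mod_cast hM
  have hk0 : (0 : ℝ) ≤ k := Nat.cast_nonneg k
  have d1 : 0 < (M.card : ℝ) - k := by linarith
  have hBw : av (k + 1) M B = w := av_upf (by omega) f
  set lam : ℝ := (k : ℝ) * ((M.card : ℝ) - k - 1) / ((k + 1) * ((M.card : ℝ) - k)) with hlam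
  have hlam0 : 0 ≤ lam := by
    rw [hlam]
    exact div_nonneg (mul_nonneg hk0 (by linarith)) (by positivity)
  have hdown := down2 M B hM
  have hl0 := lv_nonneg' M B (b := k) (by omega) (by omega)
  have hl1 := lv_le_var M B (b := k) hM
  rw [hBw] at hdown hl1
  set vB := av (k + 1) M (fun T => B T ^ 2) - w ^ 2 with hvB
  have hlam2 : ((k : ℝ) - 1) * ((M.card : ℝ) - k - 2) / ((k + 1) * ((M.card : ℝ) - k)) ≤ lam := by
    rw [hlam]
    refine div_le_div_of_nonneg_right ?_ (by positivity)
    nlinarith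
  have hDsq : av k M (fun S => D S ^ 2) - w ^ 2 ≤ lam * vB := by
    have h1 : ((k : ℝ) - 1) * ((M.card : ℝ) - k - 2) / ((k + 1) * ((M.card : ℝ) - k)) *
        (vB - lv k M B) ≤ lam * (vB - lv k M B) :=
      mul_le_mul_of_nonneg_right hlam2 (by linarith)
    have h2 : av k M (fun S => D S ^ 2) ≤ w ^ 2 + lam * lv k M B +
        ((k : ℝ) - 1) * ((M.card : ℝ) - k - 2) / ((k + 1) * ((M.card : ℝ) - k)) *
        (vB - lv k M B) := hdown
    linarith
  have hDw : av k M D = w := by
    have h1 := upf_adj (k := k) (M := M) (by omega) (fun _ => 1) B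
    have h2 : av (k + 1) M (fun T => upf k (fun _ => (1 : ℝ)) T * B T) = av (k + 1) M B := by
      refine av_congr fun T _ hTc => ?_
      unfold upf
      rw [Finset.sum_const, hTc, nsmul_eq_mul, mul_one]
      push_cast
      rw [div_self (by positivity), one_mul]
    rw [h2, hBw] at h1
    rw [h1]
    refine av_congr fun S _ _ => ?_
    rw [one_mul]
  have hBB : av (k + 1) M (fun T => B T ^ 2) = av k M (fun S => f S * D S) := by
    have h1 := upf_adj (k := k) (M := M) (by omega) f B
    rw [← h1]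
    exact av_congr fun T _ _ => sq _
  have hcs := av_cs k M (fun S => f S - w) (fun S => D S - w)
  have hcov : av k M (fun S => (f S - w) * (D S - w)) = vB := by
    have : (fun S => (f S - w) * (D S - w)) = fun S =>
        ((f S * D S - w * f S) - w * D S) + w ^ 2 := by
      funext S; ring
    rw [this, av_add, av_sub, av_sub, av_mul, av_mul, av_const (by omega), hDw, ← hw, ← hBB]
    ring
  rw [hcov, av_var (by omega), av_var (by omega), hDw, ← hw] at hcs
  set vf := av k M (fun S => f S ^ 2) - w ^ 2 with hvf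
  have hcs2 : vB ^ 2 ≤ vf * (av k M (fun S => D S ^ 2) - w ^ 2) := by
    refine hcs.trans (le_of_eq ?_)
    rw [hvf]
    ring
  have hvf0 : 0 ≤ vf := by
    have h1 : 0 ≤ av k M (fun S => (f S - w) ^ 2) := av_nonneg fun _ _ _ => sq_nonneg _
    rw [av_var (by omega), ← hw] at h1
    rw [hvf]
    nlinarith
  have h3 : vB ^ 2 ≤ vf * (lam * vB) := hcs2.trans (mul_le_mul_of_nonneg_left hDsq hvf0)
  rcases le_or_gt vB 0 with h0 | h0
  · exact h0.trans (mul_nonneg hlam0 hvf0)
  · have h4 : vB * vB ≤ (lam * vf) * vB := by nlinarith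
    exact le_of_mul_le_mul_right h4 h0

/-- A good set avoiding the largest element has no bad trace. -/
theorem upf_bad_mul_nn {k : ℕ} {V : Finset α} {i : α} {x : α → ℝ} (hmax : ∀ j ∈ V, x j ≤ x i)
    {T : Finset α} (hT : T ⊆ V) : upf k (bad x i) T * nn x T = 0 := by
  by_cases h : 0 ≤ ∑ j ∈ T, x j
  · have h1 : upf k (bad x i) T = 0 := by
      unfold upf
      rw [Finset.sum_eq_zero, zero_div]
      intro j hj
      unfold bad
      rw [if_neg]
      have h2 := Finset.add_sum_erase T x hj
      have h3 := hmax j (hT hj)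
      linarith
    rw [h1, zero_mul]
  · have h1 : nn x T = 0 := by
      unfold nn
      rw [if_neg h]
    rw [h1, mul_zero]

/-- The constants. -/
noncomputable def cr (K N : ℝ) : ℝ := K / (N - K)
noncomputable def crho (K N : ℝ) : ℝ := K * (K - 1) / ((N - K) * (N - K - 1))
noncomputable def clam (K N : ℝ) : ℝ := (K - 1) * (N - K) / (K * (N - K + 1))

/-- Stage A. -/
theorem mixE {k : ℕ} {V : Finset α} {i : α} (hi : i ∈ V)
    (hn : 2 * (k + 1) + 1 ≤ V.card) (hk : k + 4 ≤ V.card)
    {ℓ : ℝ} (hLB : LB α (k + 1) (V.card - (k + 1)) ℓ) (x : α → ℝ) (hx : 0 ≤ ∑ j ∈ V, x j)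
    (hmax : ∀ j ∈ V, x j ≤ x i)
    (hw : 0 < av k (V.erase i) (bad x i))
    (hq : (1 + (cr (k + 1) (V.card - 1) - crho (k + 1) (V.card - 1)) / 2) *
      av (k + 1) (V.erase i) (nn x) ≤ ℓ) :
    av k (V.erase i) (bad x i) *
      (ℓ - (1 + (cr (k + 1) (V.card - 1) - crho (k + 1) (V.card - 1)) / 2) *
        av (k + 1) (V.erase i) (nn x)) ^ 2 ≤
      ((cr (k + 1) (V.card - 1) + crho (k + 1) (V.card - 1)) / 2) ^ 2 *
      clam (k + 1) (V.card - 1) *
      (av (k + 1) (V.erase i) (nn x) * (1 - av (k + 1) (V.erase i) (nn x))) *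
      (1 - av k (V.erase i) (bad x i)) := by
  set M := V.erase i with hM
  have hMc : M.card = V.card - 1 := by rw [hM, Finset.card_erase_of_mem hi]
  have hMr : (M.card : ℝ) = V.card - 1 := card_erase_cast hi
  rw [← hMr] at hq ⊢
  set w := av k M (bad x i) with hwdef
  set q := av (k + 1) M (nn x) with hqdef
  set r := cr (k + 1) M.card with hr
  set ρ := crho (k + 1) M.card with hρ
  set lam := clam (k + 1) M.card with hlam
  have hr' : r = ((k : ℝ) + 1) / (M.card - (k + 1)) := rfl
  have hρ' : ρ = ((k : ℝ) + 1) * k / ((M.card - (k + 1)) * (M.card - (k + 1) - 1)) := by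
    rw [hρ, crho]
    congr 2
    ring
  have hlam' : lam = (k : ℝ) * ((M.card : ℝ) - k - 1) / ((k + 1) * ((M.card : ℝ) - k)) := by
    rw [hlam, clam]
    congr 1 <;> ring
  -- lower bound
  have h1 : w * ℓ ≤ av k M (fun S => bad x i S * av (k + 1) (M \ S) (nn x)) := by
    rw [hwdef, mul_comm, ← av_mul]
    refine av_mono fun S hS hc => ?_
    by_cases hs : x i + ∑ j ∈ S, x j < 0
    · have : bad x i S = 1 := by simp [bad, hs]
      rw [this, mul_one, one_mul]
      refine hLB (M \ S) x ?_ ?_
      · rw [Finset.card_sdiff_of_subset hS, hc, hMc]; omega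
      · have e1 := Finset.sum_sdiff hS (f := x)
        have e2 := sum_erase_one hi x
        linarith
    · have : bad x i S = 0 := by simp [bad, hs]
      rw [this]; simp
  rw [disj_upf (by omega)] at h1
  -- upper bound
  have h2 := bil_bound M (upf k (bad x i)) (nn x) (k := k) (by omega) (by omega) hr' hρ'
  have hcov : av (k + 1) M (fun S => upf k (bad x i) S * nn x S) = 0 := by
    rw [av_congr (G := fun _ => (0 : ℝ)), av_const (by omega)]
    intro S hS _
    exact upf_bad_mul_nn hmax (hS.trans (Finset.erase_subset _ _))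
  have hvar := var_upf (k := k) (M := M) (by omega) (bad x i)
  have hAv : av (k + 1) M (fun S => nn x S ^ 2) = q := by
    rw [hqdef]; exact av_congr fun S _ _ => nn_sq x S
  have hbv : av k M (fun S => bad x i S ^ 2) = w := by
    rw [hwdef]; exact av_congr fun S _ _ => bad_sq x i S
  rw [hcov, av_upf (by omega), ← hwdef, ← hqdef, hAv] at h2
  rw [← hwdef, hbv, ← hlam'] at hvar
  set X := av (k + 1) M (fun T => upf k (bad x i) T * av (k + 1) (M \ T) (nn x)) with hX
  set vB := av (k + 1) M (fun T => upf k (bad x i) T ^ 2) - w ^ 2 with hvB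
  have hq0 : 0 ≤ q := av_nonneg fun S _ _ => nn_nonneg x S
  have hq1 : q ≤ 1 := by
    have := av_mono (k := k + 1) (V := M) (F := nn x) (G := fun _ => (1 : ℝ))
      (fun S _ _ => nn_le_one x S)
    rwa [av_const (by omega)] at this
  have h3 : ((r + ρ) / 2) ^ 2 * vB * (q - q ^ 2) ≤
      ((r + ρ) / 2) ^ 2 * (lam * (w - w ^ 2)) * (q - q ^ 2) := by
    refine mul_le_mul_of_nonneg_right ?_ (by nlinarith)
    exact mul_le_mul_of_nonneg_left hvar (sq_nonneg _)
  have h4 := h2.trans h3
  have h5 : w * (ℓ - (1 + (r - ρ) / 2) * q) ≤ X - w * q + (r - ρ) / 2 * (0 - w * q) := by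
    nlinarith
  have h6 : 0 ≤ w * (ℓ - (1 + (r - ρ) / 2) * q) := mul_nonneg hw.le (by linarith)
  have h7 := (pow_le_pow_left₀ h6 h5 2).trans h4
  have h8 : w * (w * (ℓ - (1 + (r - ρ) / 2) * q) ^ 2) ≤
      w * (((r + ρ) / 2) ^ 2 * lam * (q * (1 - q)) * (1 - w)) := by
    calc w * (w * (ℓ - (1 + (r - ρ) / 2) * q) ^ 2) =
        (w * (ℓ - (1 + (r - ρ) / 2) * q)) ^ 2 := by ring
      _ ≤ ((r + ρ) / 2) ^ 2 * (lam * (w - w ^ 2)) * (q - q ^ 2) := h7
      _ = _ := by ring
  exact le_of_mul_le_mul_left h8 hw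

/-- Monotonicity: the bad sets through `j` are at least as frequent as those through `i` when
`x j ≤ x i`. -/
theorem bad_mono {k : ℕ} {V : Finset α} {i j : α} (hi : i ∈ V) (hj : j ∈ V)
    (hk : k + 1 ≤ V.card) (x : α → ℝ) (hij : x j ≤ x i) :
    av k (V.erase i) (bad x i) ≤ av k (V.erase j) (bad x j) := by
  by_cases hne : i = j
  · rw [hne]
  rcases Nat.eq_zero_or_pos k with h0 | hpos
  · subst h0
    rw [av_zero, av_zero]
    unfold bad
    simp only [Finset.sum_empty, add_zero]
    split_ifs with h1 h2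
    · exact le_rfl
    · exact absurd (lt_of_le_of_lt hij h1) h2
    · norm_num
    · exact le_rfl
  · obtain ⟨m, rfl⟩ : ∃ m, k = m + 1 := ⟨k - 1, by omega⟩
    have hji : j ∈ V.erase i := Finset.mem_erase.2 ⟨fun h => hne h.symm, hj⟩
    have hij' : i ∈ V.erase j := Finset.mem_erase.2 ⟨hne, hi⟩
    have c1 : (V.erase i).card = V.card - 1 := Finset.card_erase_of_mem hi
    have c2 : (V.erase j).card = V.card - 1 := Finset.card_erase_of_mem hj
    rw [av_split hji (by omega), av_split hij' (by omega), c1, c2,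
      Finset.erase_right_comm (a := j) (b := i)]
    have e1 : av m ((V.erase i).erase j) (fun S => bad x i (insert j S)) =
        av m ((V.erase i).erase j) (fun S => bad x j (insert i S)) := by
      refine av_congr fun S hS _ => ?_
      have h1 : j ∉ S := fun h => (Finset.mem_erase.1 (hS h)).1 rfl
      have h2 : i ∉ S := fun h => (Finset.mem_erase.1 (Finset.mem_erase.1 (hS h)).2).1 rfl
      unfold bad
      rw [Finset.sum_insert h1, Finset.sum_insert h2]
      have : x i + (x j + ∑ k ∈ S, x k) = x j + (x i + ∑ k ∈ S, x k) := by ring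
      rw [this]
    rw [e1]
    refine add_le_add_left ?_ _
    refine mul_le_mul_of_nonneg_left ?_ ?_
    · refine av_mono fun S _ _ => ?_
      unfold bad
      split_ifs with h1 h2
      · exact le_rfl
      · exact absurd (by linarith) h2
      · norm_num
      · exact le_rfl
    · refine div_nonneg ?_ (by positivity)
      have : ((m + 1 + 1 : ℕ) : ℝ) ≤ V.card := by exact_mod_cast hk
      push_cast at this
      rw [Nat.cast_sub (by omega)]
      push_cast
      linarith

end Pool.Agent.MMS77
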