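import Pool.Agent.MMSA.Mix2

/-!
The disjointness operator on the `(k+1)`-subsets: two-sided bounds of its quadratic form, and the
resulting bilinear bound: on functions with average zero its spectrum lies in `[-r, ρ]`.
-/

set_option autoImplicit false
set_option linter.unusedSectionVars false

namespace Pool.Agent.MMS77

open Finset Pool.Agent.H59.MMS Pool.Agent.MMSA

variable {α : Type*} [DecidableEq α]

/-- the average of a centred linear function over the sets disjoint from `S` -/
private theorem lin_disj {K : ℕ} {V : Finset α} (hn : 2 * K ≤ V.card) (hV : 1 ≤ V.card - K)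
    (c : α → ℝ) (hc : ∑ j ∈ V, c j = 0) {S : Finset α} (hS : S ⊆ V) (hSc : S.card = K) :
    av K (V \ S) (fun T => ∑ j ∈ T, c j) = -((K : ℝ) / (V.card - K)) * ∑ j ∈ S, c j := by
  have hcard : (V \ S).card = V.card - K := by rw [Finset.card_sdiff_of_subset hS, hSc]
  rw [mom1 (by omega) (by omega), hcard, Nat.cast_sub (by omega)]
  have h := Finset.sum_sdiff (f := c) hS
  rw [hc] at h
  have h2 : ∑ j ∈ V \ S, c j = -∑ j ∈ S, c j := by linarith
  rw [h2]
  ring

private theorem pair_disj {K : ℕ} {V : Finset α} (hn : 2 * K ≤ V.card) (hV : 1 ≤ V.card - K)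
    (c : α → ℝ) (hc : ∑ j ∈ V, c j = 0) (u : Finset α → ℝ) :
    av K V (fun S => u S * av K (V \ S) (fun T => ∑ j ∈ T, c j)) =
      -((K : ℝ) / (V.card - K)) * av K V (fun S => u S * ∑ j ∈ S, c j) := by
  rw [← av_mul]
  refine av_congr fun S hS hSc => ?_
  rw [lin_disj hn hV c hc hS hSc]
  ring

/-- Two-sided bounds with the exact level-one weight. -/
theorem quad_lv {k : ℕ} (V : Finset α) (F : Finset α → ℝ) (hk : k + 3 ≤ V.card)
    (hn : 2 * (k + 1) ≤ V.card) {r ρ : ℝ}
    (hr : r = ((k : ℝ) + 1) / (V.card - (k + 1)))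
    (hρ : ρ = ((k : ℝ) + 1) * k / ((V.card - (k + 1)) * (V.card - (k + 1) - 1))) :
    av (k + 1) V F ^ 2 - r * lv k V F -
        ρ * (av (k + 1) V (fun S => F S ^ 2) - av (k + 1) V F ^ 2 - lv k V F) ≤
      av (k + 1) V (fun S => F S * av (k + 1) (V \ S) F) ∧
    av (k + 1) V (fun S => F S * av (k + 1) (V \ S) F) ≤
      av (k + 1) V F ^ 2 - r * lv k V F +
        ρ * (av (k + 1) V (fun S => F S ^ 2) - av (k + 1) V F ^ 2 - lv k V F) := by
  have hkR : (0 : ℝ) ≤ k := Nat.cast_nonneg k
  have hnR : (k : ℝ) + 3 ≤ V.card := by exact_mod_cast hk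
  have hKc : ((k + 1 : ℕ) : ℝ) = (k : ℝ) + 1 := by push_cast; ring
  have hrK : -(((k + 1 : ℕ) : ℝ) / (V.card - ((k + 1 : ℕ) : ℝ))) = -r := by
    rw [hr, hKc]
  set q := av (k + 1) V F with hq
  set c := cf k V F with hc
  have hsc : ∑ j ∈ V, c j = 0 := sum_cf V F (by omega)
  set L : Finset α → ℝ := fun S => ∑ j ∈ S, c j with hL
  set g : Finset α → ℝ := fun S => F S - q - ∑ j ∈ S, c j with hg
  set G : Finset α → ℝ := fun S => av (k + 1) (V \ S) g with hG
  have hgn : av (k + 1) V (fun S => g S ^ 2) =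
      av (k + 1) V (fun S => F S ^ 2) - q ^ 2 - lv k V F := rest_norm V F (by omega)
  have havL : av (k + 1) V L = 0 := by
    rw [hL, mom1 (by omega) (by omega), hsc, mul_zero]
  have hFL : av (k + 1) V (fun S => F S * L S) = lv k V F := by
    have h := av_mul_lin V F (b := k) (by omega) c hsc
    rw [hL]
    simp only
    rw [h, lv]
    congr 1
    refine Finset.sum_congr rfl fun j _ => ?_
    rw [← hc]
    ring
  have hLL : av (k + 1) V (fun S => L S ^ 2) = lv k V F := by
    have h := mom2 (k := k + 1) (V := V) (by omega) (by omega) c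
    rw [hsc] at h
    rw [hL]
    simp only
    rw [h, lv, A2, ← hc]
    have h1 : (V.card : ℝ) ≠ 0 := by linarith
    have h2 : (V.card : ℝ) - 1 ≠ 0 := by linarith
    push_cast
    field_simp
    ring
  have hGsum : av (k + 1) V G = 0 := by
    have h := av_disj g (b := k + 1) (k + 1) V (by omega)
    rw [hG, h, hg]
    have e : av (k + 1) V (fun S => F S - q - ∑ j ∈ S, c j) =
        av (k + 1) V (fun S => F S - q) - av (k + 1) V L := av_sub _ _ _ _
    rw [e, av_sub, av_const (by omega), havL, ← hq]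
    ring
  have hgL : av (k + 1) V (fun S => g S * L S) = 0 := by
    have e : ∀ S, g S * L S = F S * L S - q * L S - L S ^ 2 := by
      intro S
      simp only [hg, hL]
      ring
    simp only [e]
    rw [av_sub, av_sub, av_mul, hFL, havL, hLL]
    ring
  have hLG : av (k + 1) V (fun S => L S * G S) = 0 := by
    rw [hG, av_disj_swap (k + 1) (k + 1) V L g (by omega)]
    have h := pair_disj (K := k + 1) hn (by omega) c hsc g
    rw [hL] at hgL ⊢
    rw [h, hgL, mul_zero]
  have hGG : av (k + 1) V (fun S => G S ^ 2) ≤ ρ ^ 2 * av (k + 1) V (fun S => g S ^ 2) := by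
    have h := disj_level2 (a := k + 1) (b := k) V g (by omega) (by omega) (by omega) hk
      (fun i hi => rest_level V F (by omega) i hi)
    have e : rho2 ((k + 1 : ℕ) : ℝ) (k + 1) V.card = ρ ^ 2 := by
      rw [rho2, hρ, hKc]
      have h1 : (V.card : ℝ) - (k + 1) ≠ 0 := by linarith
      have h2 : (V.card : ℝ) - (k + 1) - 1 ≠ 0 := by linarith
      field_simp
      ring
    rw [e] at h
    exact h
  have hρ0 : 0 ≤ ρ := by
    rw [hρ]
    have h1 : 0 < (V.card : ℝ) - (k + 1) := by linarith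
    have h2 : 0 < (V.card : ℝ) - (k + 1) - 1 := by linarith
    positivity
  have hg0 : 0 ≤ av (k + 1) V (fun S => g S ^ 2) := av_nonneg fun S _ _ => sq_nonneg _
  have hgG : -(ρ * av (k + 1) V (fun S => g S ^ 2)) ≤ av (k + 1) V (fun S => g S * G S) ∧
      av (k + 1) V (fun S => g S * G S) ≤ ρ * av (k + 1) V (fun S => g S ^ 2) := by
    have h1 := av_cs (k + 1) V g G
    have h2 : (av (k + 1) V (fun S => g S * G S)) ^ 2 ≤
        (ρ * av (k + 1) V (fun S => g S ^ 2)) ^ 2 := by
      refine h1.trans ?_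
      have h3 := mul_le_mul_of_nonneg_left hGG hg0
      refine h3.trans (le_of_eq ?_)
      ring
    exact abs_le_of_sq_le_sq' h2 (mul_nonneg hρ0 hg0)
  -- the expansion
  have hexp : ∀ S, S ⊆ V → S.card = k + 1 → F S * av (k + 1) (V \ S) F =
      q * F S - r * (F S * L S) + (q * G S + L S * G S + g S * G S) := by
    intro S hS hSc
    have hcard : (V \ S).card = V.card - (k + 1) := by rw [Finset.card_sdiff_of_subset hS, hSc]
    have h1 : av (k + 1) (V \ S) F = q - r * L S + G S := by
      have e1 : G S = av (k + 1) (V \ S) (fun T => F T - q) -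
          av (k + 1) (V \ S) (fun T => ∑ j ∈ T, c j) := by
        rw [hG, hg]
        simp only
        exact av_sub _ _ _ _
      rw [e1, av_sub, av_const (by omega), lin_disj hn (by omega) c hsc hS hSc, hrK]
      simp only [hL]
      ring
    have h2 : F S = q + L S + g S := by
      simp only [hL, hg]
      ring
    rw [h1]
    have h3 : F S * G S = q * G S + L S * G S + g S * G S := by
      rw [h2]
      ring
    rw [← h3]
    ring
  rw [av_congr hexp, av_add, av_sub, av_mul, av_mul, av_add, av_add, av_mul, hGsum, hFL, hLG, ← hq]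
  rw [← hgn]
  constructor
  · linarith [hgG.1]
  · linarith [hgG.2]

theorem lv_nonneg' {b : ℕ} (M : Finset α) (h : Finset α → ℝ) (hb : b + 1 ≤ M.card)
    (hM : 2 ≤ M.card) : 0 ≤ lv b M h := by
  unfold lv
  refine mul_nonneg ?_ (Finset.sum_nonneg fun j _ => sq_nonneg _)
  unfold A2
  have h1 : (b : ℝ) + 1 ≤ M.card := by exact_mod_cast hb
  have h2 : (2 : ℝ) ≤ M.card := by exact_mod_cast hM
  have h3 : (0 : ℝ) ≤ b := Nat.cast_nonneg b
  refine div_nonneg (mul_nonneg (by linarith) (by linarith)) (mul_nonneg (by linarith) (by linarith))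

theorem lv_le_var {b : ℕ} (M : Finset α) (h : Finset α → ℝ) (hb : b + 2 ≤ M.card) :
    lv b M h ≤ av (b + 1) M (fun T => h T ^ 2) - av (b + 1) M h ^ 2 := by
  have h1 := rest_norm M h hb
  have h2 : 0 ≤ av (b + 1) M (fun T => (h T - av (b + 1) M h - ∑ j ∈ T, cf b M h j) ^ 2) :=
    av_nonneg fun _ _ _ => sq_nonneg _
  linarith

/-- Two-sided bounds of the quadratic form. -/
theorem quad_var {k : ℕ} (V : Finset α) (F : Finset α → ℝ) (hk : k + 3 ≤ V.card)
    (hn : 2 * (k + 1) ≤ V.card) {r ρ : ℝ}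
    (hr : r = ((k : ℝ) + 1) / (V.card - (k + 1)))
    (hρ : ρ = ((k : ℝ) + 1) * k / ((V.card - (k + 1)) * (V.card - (k + 1) - 1))) :
    av (k + 1) V F ^ 2 - r * (av (k + 1) V (fun S => F S ^ 2) - av (k + 1) V F ^ 2) ≤
      av (k + 1) V (fun S => F S * av (k + 1) (V \ S) F) ∧
    av (k + 1) V (fun S => F S * av (k + 1) (V \ S) F) ≤
      av (k + 1) V F ^ 2 + ρ * (av (k + 1) V (fun S => F S ^ 2) - av (k + 1) V F ^ 2) := by
  have h := quad_lv V F hk hn hr hρ
  have hkR : (0 : ℝ) ≤ k := Nat.cast_nonneg k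
  have hnR : (k : ℝ) + 3 ≤ V.card := by exact_mod_cast hk
  have hnR2 : 2 * ((k : ℝ) + 1) ≤ V.card := by exact_mod_cast hn
  have d1 : 0 < (V.card : ℝ) - (k + 1) := by linarith
  have d2 : 0 < (V.card : ℝ) - (k + 1) - 1 := by linarith
  have hρ0 : 0 ≤ ρ := by rw [hρ]; positivity
  have hρr : ρ ≤ r := by
    rw [hρ, hr, ← div_mul_div_comm]
    have h1 : (k : ℝ) / ((V.card : ℝ) - (k + 1) - 1) ≤ 1 := by
      rw [div_le_one d2]
      linarith
    have h2 : 0 ≤ ((k : ℝ) + 1) / (V.card - (k + 1)) := by positivity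
    nlinarith
  have hl0 := lv_nonneg' V F (b := k) (by omega) (by omega)
  have hl1 := lv_le_var V F (b := k) (by omega)
  set v := av (k + 1) V (fun S => F S ^ 2) - av (k + 1) V F ^ 2 with hv
  constructor
  · have h3 : 0 ≤ (r - ρ) * (v - lv k V F) := mul_nonneg (by linarith) (by linarith)
    nlinarith [h.1]
  · have h3 : 0 ≤ (r + ρ) * lv k V F := mul_nonneg (by linarith) hl0
    nlinarith [h.2]

/-- The bilinear bound. -/
theorem bil_bound {k : ℕ} (V : Finset α) (F H : Finset α → ℝ) (hk : k + 3 ≤ V.card)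
    (hn : 2 * (k + 1) ≤ V.card) {r ρ : ℝ}
    (hr : r = ((k : ℝ) + 1) / (V.card - (k + 1)))
    (hρ : ρ = ((k : ℝ) + 1) * k / ((V.card - (k + 1)) * (V.card - (k + 1) - 1))) :
    (av (k + 1) V (fun S => F S * av (k + 1) (V \ S) H) - av (k + 1) V F * av (k + 1) V H +
      (r - ρ) / 2 * (av (k + 1) V (fun S => F S * H S) - av (k + 1) V F * av (k + 1) V H)) ^ 2 ≤
    ((r + ρ) / 2) ^ 2 * (av (k + 1) V (fun S => F S ^ 2) - av (k + 1) V F ^ 2) *
      (av (k + 1) V (fun S => H S ^ 2) - av (k + 1) V H ^ 2) := by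
  set qF := av (k + 1) V F with hqF
  set qH := av (k + 1) V H with hqH
  set vF := av (k + 1) V (fun S => F S ^ 2) - qF ^ 2 with hvF
  set vH := av (k + 1) V (fun S => H S ^ 2) - qH ^ 2 with hvH
  set B := av (k + 1) V (fun S => F S * av (k + 1) (V \ S) H) with hB
  set C := av (k + 1) V (fun S => F S * H S) - qF * qH with hC
  set BF := av (k + 1) V (fun S => F S * av (k + 1) (V \ S) F) with hBF
  set BH := av (k + 1) V (fun S => H S * av (k + 1) (V \ S) H) with hBH
  have hsym : av (k + 1) V (fun S => H S * av (k + 1) (V \ S) F) = B :=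
    av_disj_swap (k + 1) (k + 1) V H F (by omega)
  have key : ∀ s e : ℝ, av (k + 1) V (fun S => (s * F S + e * H S) *
      av (k + 1) (V \ S) (fun T => s * F T + e * H T)) =
      s ^ 2 * BF + 2 * s * e * B + e ^ 2 * BH := by
    intro s e
    have h1 : av (k + 1) V (fun S => (s * F S + e * H S) *
        av (k + 1) (V \ S) (fun T => s * F T + e * H T)) =
        av (k + 1) V (fun S => (s ^ 2 * (F S * av (k + 1) (V \ S) F) +
          (s * e) * (F S * av (k + 1) (V \ S) H)) +
          ((s * e) * (H S * av (k + 1) (V \ S) F) + e ^ 2 * (H S * av (k + 1) (V \ S) H))) := by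
      refine av_congr fun S _ _ => ?_
      rw [av_add, av_mul, av_mul]
      ring
    rw [h1, av_add, av_add, av_add, av_mul, av_mul, av_mul, av_mul, hsym]
    ring
  have key1 : ∀ s e : ℝ, av (k + 1) V (fun S => s * F S + e * H S) = s * qF + e * qH := by
    intro s e
    rw [av_add, av_mul, av_mul]
  have key2 : ∀ s e : ℝ, av (k + 1) V (fun S => (s * F S + e * H S) ^ 2) -
      (s * qF + e * qH) ^ 2 = s ^ 2 * vF + 2 * s * e * C + e ^ 2 * vH := by
    intro s e
    have h1 : (fun S => (s * F S + e * H S) ^ 2) = fun S => (s ^ 2 * F S ^ 2 +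
        (2 * s * e) * (F S * H S)) + e ^ 2 * H S ^ 2 := by
      funext S; ring
    rw [h1, av_add, av_add, av_mul, av_mul, av_mul, hvF, hvH, hC]
    ring
  have hquad : ∀ s : ℝ, 0 ≤ ((r + ρ) * vF) * (s * s) +
      (-(4 * (B - qF * qH + (r - ρ) / 2 * C))) * s + (r + ρ) * vH := by
    intro s
    have h1 := (quad_var V (fun S => s * F S + 1 * H S) hk hn hr hρ).2
    have h2 := (quad_var V (fun S => s * F S + (-1) * H S) hk hn hr hρ).1
    rw [key s 1, key1 s 1, key2 s 1] at h1
    rw [key s (-1), key1 s (-1), key2 s (-1)] at h2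
    nlinarith
  have hd := discrim_le_zero hquad
  unfold discrim at hd
  nlinarith

end Pool.Agent.MMS77
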