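import Pool.Agent.MMS77.MixE
import Pool.Agent.MMS77.Cond
import Pool.Agent.MMS36.Rows

/-!
Stage A in the form used by the certificates: in a failing system every conditional fraction
`gin` is at most `γ`; and the bounds on `gin`, `gout` in a minimal failing system.
-/

set_option autoImplicit false
set_option linter.unusedSectionVars false

namespace Pool.Agent.MMS77

open Finset Pool.Agent.H59.MMS Pool.Agent.MMSA Pool.Agent.MMS36

variable {α : Type*} [DecidableEq α]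

theorem gin_eq_bad {k : ℕ} {V : Finset α} {x : α → ℝ} {i : α} (hi : i ∈ V)
    (hk : k + 1 ≤ V.card) : gin k V x i = 1 - av k (V.erase i) (bad x i) := by
  rw [gin_eq]
  have h : av k (V.erase i) (fun T => ge0 (x i + ∑ t ∈ T, x t)) =
      av k (V.erase i) (fun T => (1 : ℝ) - bad x i T) := by
    refine av_congr fun T _ _ => ?_
    unfold ge0 bad
    by_cases h : 0 ≤ x i + ∑ t ∈ T, x t
    · rw [if_pos h, if_neg (not_lt.2 h)]; ring
    · rw [if_neg h, if_pos (not_le.1 h)]; ring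
  rw [h, av_sub, av_const]
  rw [Finset.card_erase_of_mem hi]; omega

/-- Monotonicity of the conditional fractions. -/
theorem gin_mono {k : ℕ} {V : Finset α} {x : α → ℝ} {i j : α} (hi : i ∈ V) (hj : j ∈ V)
    (hk : k + 1 ≤ V.card) (hij : x j ≤ x i) : gin k V x j ≤ gin k V x i := by
  rw [gin_eq_bad hi hk, gin_eq_bad hj hk]
  have := bad_mono hi hj hk x hij
  linarith

/-- For the largest element a good set avoiding it and the bad sets through it exclude each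
other. -/
theorem gout_add_bad_le {k : ℕ} {V : Finset α} {x : α → ℝ} {i : α}
    (hi : i ∈ V) (hk : k + 2 ≤ V.card) (hmax : ∀ j ∈ V, x j ≤ x i) :
    av (k + 1) (V.erase i) (nn x) + av k (V.erase i) (bad x i) ≤ 1 := by
  have hc : (V.erase i).card = V.card - 1 := Finset.card_erase_of_mem hi
  rw [← av_upf (k := k) (W := V.erase i) (by omega) (bad x i), ← av_add]
  have h1 := av_mono (k := k + 1) (V := V.erase i)
    (F := fun S => nn x S + upf k (bad x i) S) (G := fun _ => (1 : ℝ)) ?_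
  · rwa [av_const (by omega)] at h1
  · intro T hT hTc
    have h2 := upf_bad_mul_nn (k := k) hmax (hT.trans (Finset.erase_subset i V))
    have h3 : upf k (bad x i) T ≤ 1 := by
      unfold upf
      rw [div_le_one (by positivity)]
      have h4 : ∑ j ∈ T, bad x i (T.erase j) ≤ ∑ _j ∈ T, (1 : ℝ) :=
        Finset.sum_le_sum fun j _ => by unfold bad; split_ifs <;> norm_num
      rw [Finset.sum_const, hTc, nsmul_eq_mul, mul_one] at h4
      push_cast at h4
      exact h4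
    have h0 : 0 ≤ ∑ j ∈ T, x j ∨ ¬ 0 ≤ ∑ j ∈ T, x j := em _
    rcases h0 with h | h
    · have e : nn x T = 1 := by unfold nn; rw [if_pos h]
      rw [e, mul_one] at h2
      simp only [e, h2, add_zero, le_refl]
    · have e : nn x T = 0 := by unfold nn; rw [if_neg h]
      simp only [e, zero_add]
      exact h3

/-- Stage A: general form. The numbers `a`, `b` describe the consequence `a + b q < w` of the
failing hypothesis, `κ1`, `κ2` bound the constants of `mixE`. -/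
theorem gin_le {k n : ℕ} {V : Finset α} {x : α → ℝ} (hV : V.card = n) (hx : 0 ≤ ∑ i ∈ V, x i)
    {τ ℓ γ a b κ1 κ2 : ℝ} (hn : 2 * (k + 1) + 1 ≤ n) (hk4 : k + 4 ≤ n)
    (hLB : LB α (k + 1) (n - (k + 1)) ℓ) (hP : av (k + 1) V (nn x) < τ)
    (h1 : 1 + (cr (k + 1) (n - 1) - crho (k + 1) (n - 1)) / 2 ≤ κ1)
    (h2 : ((cr (k + 1) (n - 1) + crho (k + 1) (n - 1)) / 2) ^ 2 * clam (k + 1) (n - 1) ≤ κ2)
    (hab : ∀ w q : ℝ, 0 ≤ q → q ≤ 1 - w → w ≤ 1 →
      ((n : ℝ) - (k + 1)) / n * q + (k + 1) / n * (1 - w) < τ → a + b * q < w)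
    (ha : 0 ≤ a) (hb : 0 < b) (hκ : 0 < κ1) (hq0 : κ1 * (1 - γ - a) ≤ ℓ * b)
    (hpoly : ∀ q : ℝ, 0 ≤ q → b * q ≤ 1 - γ - a →
      κ2 * (q * (1 - q)) * (1 - a - b * q) ≤ (a + b * q) * (ℓ - κ1 * q) ^ 2) :
    ∀ j ∈ V, gin k V x j ≤ γ := by
  intro j hj
  by_contra hlt
  push Not at hlt
  obtain ⟨i, hi, hmax⟩ := Finset.exists_max_image V x ⟨j, hj⟩
  have hkV : k + 1 ≤ V.card := by omega
  have hgi : γ < gin k V x i := hlt.trans_le (gin_mono hi hj hkV (hmax j hj))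
  have hwi := gin_eq_bad (x := x) hi hkV
  set w := av k (V.erase i) (bad x i) with hw
  set q := av (k + 1) (V.erase i) (nn x) with hq
  have hcard : (V.erase i).card = n - 1 := by rw [Finset.card_erase_of_mem hi, hV]
  have hq0' : 0 ≤ q := av_nonneg fun S _ _ => nn_nonneg x S
  have hq1 : q ≤ 1 := by
    have := av_mono (k := k + 1) (V := V.erase i) (F := nn x) (G := fun _ => (1 : ℝ))
      (fun S _ _ => nn_le_one x S)
    rwa [av_const (by omega)] at this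
  have hw1 : w ≤ 1 := by
    have := av_mono (k := k) (V := V.erase i) (F := bad x i) (G := fun _ => (1 : ℝ))
      (fun S _ _ => by unfold bad; split_ifs <;> norm_num)
    rwa [av_const (by omega)] at this
  have htot := tot_eq (x := x) hi hkV
  rw [hwi, hV] at htot
  have htot' : av (k + 1) V (nn x) = ((n : ℝ) - (k + 1)) / n * q + (k + 1) / n * (1 - w) := htot
  rw [htot'] at hP
  have hqw := gout_add_bad_le (k := k) hi (by omega) hmax
  rw [← hw, ← hq] at hqw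
  have hwq := hab w q hq0' (by linarith) hw1 hP
  have hwg : w < 1 - γ := by linarith
  have hbq : b * q < 1 - γ - a := by linarith
  have hbq0 : 0 ≤ b * q := mul_nonneg hb.le hq0'
  have hwpos : 0 < w := by linarith
  have hlk : κ1 * q < ℓ := by
    have h3 : κ1 * (b * q) < κ1 * (1 - γ - a) := mul_lt_mul_of_pos_left hbq hκ
    have h4 : b * (κ1 * q) < b * ℓ := by linarith
    exact lt_of_mul_lt_mul_left h4 hb.le
  have h1q : (1 + (cr (k + 1) (n - 1) - crho (k + 1) (n - 1)) / 2) * q ≤ κ1 * q :=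
    mul_le_mul_of_nonneg_right h1 hq0'
  have hmix := mixE (k := k) hi (by omega) (by omega) (ℓ := ℓ) (by rw [hV]; exact hLB) x hx
    hmax hwpos (by rw [hV]; linarith)
  rw [hV, ← hw, ← hq] at hmix
  have h5 : w * (ℓ - κ1 * q) ^ 2 ≤ w * (ℓ - (1 + (cr (k + 1) (n - 1) -
      crho (k + 1) (n - 1)) / 2) * q) ^ 2 := by
    refine mul_le_mul_of_nonneg_left ?_ hwpos.le
    exact pow_le_pow_left₀ (by linarith) (by linarith) 2
  have h6 : ((cr (k + 1) (n - 1) + crho (k + 1) (n - 1)) / 2) ^ 2 * clam (k + 1) (n - 1) *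
      (q * (1 - q)) * (1 - w) ≤ κ2 * (q * (1 - q)) * (1 - w) := by
    refine mul_le_mul_of_nonneg_right ?_ (by linarith)
    exact mul_le_mul_of_nonneg_right h2 (mul_nonneg hq0' (by linarith))
  have hκ2 : 0 ≤ κ2 := by
    refine le_trans (mul_nonneg (sq_nonneg _) ?_) h2
    unfold clam
    have hnR : 2 * ((k : ℝ) + 1) + 1 ≤ n := by exact_mod_cast hn
    have hkR : (0 : ℝ) ≤ k := Nat.cast_nonneg k
    have e1 : (k : ℝ) + 1 - 1 = k := by ring
    rw [e1]
    refine div_nonneg (mul_nonneg hkR (by linarith)) (mul_nonneg (by linarith) (by linarith))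
  have h7 : κ2 * (q * (1 - q)) * (1 - w) ≤ κ2 * (q * (1 - q)) * (1 - a - b * q) := by
    refine mul_le_mul_of_nonneg_left (by linarith) ?_
    exact mul_nonneg hκ2 (mul_nonneg hq0' (by linarith))
  have h8 := hpoly q hq0' hbq.le
  have h9 : w * (ℓ - κ1 * q) ^ 2 ≤ (a + b * q) * (ℓ - κ1 * q) ^ 2 := by linarith
  have h10 : 0 < (ℓ - κ1 * q) ^ 2 := pow_pos (by linarith) 2
  have h11 := le_of_mul_le_mul_right h9 h10
  linarith

/-- A cubic that is nonnegative on `[0, c]` by its Bernstein coefficients. -/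
theorem cubic_nonneg {c0 c1 c2 c3 c : ℝ} (hc : 0 < c) (h0 : 0 ≤ c0)
    (h1 : 0 ≤ 3 * c0 + c1 * c) (h2 : 0 ≤ 3 * c0 + 2 * c1 * c + c2 * c ^ 2)
    (h3 : 0 ≤ c0 + c1 * c + c2 * c ^ 2 + c3 * c ^ 3) {q : ℝ} (hq : 0 ≤ q) (hqc : q ≤ c) :
    0 ≤ c0 + c1 * q + c2 * q ^ 2 + c3 * q ^ 3 := by
  have hd : 0 ≤ c - q := by linarith
  have e : (c0 + c1 * q + c2 * q ^ 2 + c3 * q ^ 3) * c ^ 3 =
      c0 * (c - q) ^ 3 + (3 * c0 + c1 * c) * (q * (c - q) ^ 2) +
        (3 * c0 + 2 * c1 * c + c2 * c ^ 2) * (q ^ 2 * (c - q)) +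
        (c0 + c1 * c + c2 * c ^ 2 + c3 * c ^ 3) * q ^ 3 := by ring
  have hpos : 0 < c ^ 3 := pow_pos hc 3
  have hnon : 0 ≤ (c0 + c1 * q + c2 * q ^ 2 + c3 * q ^ 3) * c ^ 3 := by
    rw [e]
    have := mul_nonneg h0 (pow_nonneg hd 3)
    have := mul_nonneg h1 (mul_nonneg hq (pow_nonneg hd 2))
    have := mul_nonneg h2 (mul_nonneg (pow_nonneg hq 2) hd)
    have := mul_nonneg h3 (pow_nonneg hq 3)
    linarith
  exact nonneg_of_mul_nonneg_left hnon hpos

/-- The polynomial hypothesis of `gin_le` from Bernstein coefficients; `c` is the largest `q`. -/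
theorem hpoly_of {a b ℓ κ1 κ2 γ c : ℝ} (hb : 0 < b) (hc : 0 < c) (hcb : 1 - γ - a ≤ b * c)
    (h0 : 0 ≤ a * ℓ ^ 2)
    (h1 : 0 ≤ 3 * (a * ℓ ^ 2) + (b * ℓ ^ 2 - 2 * a * ℓ * κ1 - κ2 * (1 - a)) * c)
    (h2 : 0 ≤ 3 * (a * ℓ ^ 2) + 2 * (b * ℓ ^ 2 - 2 * a * ℓ * κ1 - κ2 * (1 - a)) * c +
      (a * κ1 ^ 2 - 2 * b * ℓ * κ1 + κ2 * (1 - a + b)) * c ^ 2)
    (h3 : 0 ≤ a * ℓ ^ 2 + (b * ℓ ^ 2 - 2 * a * ℓ * κ1 - κ2 * (1 - a)) * c +
      (a * κ1 ^ 2 - 2 * b * ℓ * κ1 + κ2 * (1 - a + b)) * c ^ 2 +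
      (b * κ1 ^ 2 - κ2 * b) * c ^ 3) :
    ∀ q : ℝ, 0 ≤ q → b * q ≤ 1 - γ - a →
      κ2 * (q * (1 - q)) * (1 - a - b * q) ≤ (a + b * q) * (ℓ - κ1 * q) ^ 2 := by
  intro q hq hbq
  have hqc : q ≤ c := by
    have : b * q ≤ b * c := hbq.trans hcb
    exact le_of_mul_le_mul_left this hb
  have := cubic_nonneg hc h0 h1 h2 h3 hq hqc
  nlinarith [this]

/-- The failing hypothesis for `τ = (k+1)/n`. -/
theorem hab_final {k n : ℕ} (hn : k + 2 ≤ n) {s : ℝ} (hs : s * (k + 1) ≤ (n : ℝ) - (k + 1)) :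
    ∀ w q : ℝ, 0 ≤ q → q ≤ 1 - w → w ≤ 1 →
      ((n : ℝ) - (k + 1)) / n * q + (k + 1) / n * (1 - w) < (k + 1 : ℝ) / n →
      0 + s * q < w := by
  intro w q hq _ _ h
  have hnR : (k : ℝ) + 2 ≤ n := by exact_mod_cast hn
  have hk : (0 : ℝ) < k + 1 := by positivity
  have hn0 : (0 : ℝ) < n := by linarith
  have e : ((n : ℝ) - (k + 1)) / n * q + (k + 1) / n * (1 - w) =
      (((n : ℝ) - (k + 1)) * q + (k + 1) * (1 - w)) / n := by
    field_simp
  rw [e, div_lt_div_iff_of_pos_right hn0] at h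
  have h1 : s * (k + 1) * q ≤ ((n : ℝ) - (k + 1)) * q := mul_le_mul_of_nonneg_right hs hq
  have h2 : (k + 1 : ℝ) * (s * q) < (k + 1) * w := by linarith
  have := lt_of_mul_lt_mul_left h2 hk.le
  linarith

/-- The failing hypothesis for `τ ≤ p ≤ (k+1)/n`. -/
theorem hab_level {k n : ℕ} (hn : k + 2 ≤ n) {p τ : ℝ} (hp : 0 < p)
    (hpn : p * n ≤ k + 1) :
    ∀ w q : ℝ, 0 ≤ q → q ≤ 1 - w → w ≤ 1 →
      ((n : ℝ) - (k + 1)) / n * q + (k + 1) / n * (1 - w) < τ →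
      (1 - τ / p) + (1 - p) / p * q < w := by
  intro w q hq hc hw h
  have hnR : (k : ℝ) + 2 ≤ n := by exact_mod_cast hn
  have hk : (0 : ℝ) < k + 1 := by positivity
  have hn0 : (0 : ℝ) < n := by linarith
  set P : ℝ := (k + 1 : ℝ) / n with hP
  have hpP : p ≤ P := by
    rw [hP, le_div_iff₀ hn0]; exact hpn
  have hP1 : P < 1 := by
    rw [hP, div_lt_one hn0]; linarith
  have e : ((n : ℝ) - (k + 1)) / n = 1 - P := by
    rw [hP]; field_simp
  rw [e] at h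
  have key : (1 - p) * q + p * (1 - w) < τ := by
    have : 0 ≤ (P - p) * (1 - w - q) := mul_nonneg (by linarith) (by linarith)
    nlinarith
  have h3 : p * ((1 - τ / p) + (1 - p) / p * q) < p * w := by
    have e2 : p * ((1 - τ / p) + (1 - p) / p * q) = p - τ + (1 - p) * q := by
      field_simp
    rw [e2]; linarith
  exact lt_of_mul_lt_mul_left h3 hp.le

/-- In a minimal failing system the fraction `gin` of a nonpositive element is small. -/
theorem gin_nonpos_le {k n : ℕ} {V : Finset α} {x : α → ℝ} {i : α} (hV : V.card = n)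
    (hi : i ∈ V) (hn : k + 2 < n) (hgood : Good (n - 1) (k + 1)) (hx : 0 ≤ ∑ i ∈ V, x i)
    (hP : av (k + 1) V (nn x) ≤ (k + 1 : ℝ) / n) (hxi : x i ≤ 0) :
    gin k V x i ≤ (k : ℝ) / ((n : ℝ) - 1) := by
  have h1 := cond_avoid (k := k + 1) hV hi (by omega) (by omega) hgood hx hxi
  have htot := tot_eq (x := x) hi (k := k) (by omega)
  rw [hV] at htot
  have hnR : (k : ℝ) + 2 < n := by exact_mod_cast hn
  have hk : (0 : ℝ) ≤ k := Nat.cast_nonneg k
  have n0 : (0 : ℝ) < n := by linarith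
  have n1 : (0 : ℝ) < (n : ℝ) - 1 := by linarith
  have h2 : (k + 1 : ℝ) / ((n : ℝ) - 1) ≤ gout k V x i := by
    unfold gout
    have e : (((k + 1 : ℕ) : ℝ)) = (k : ℝ) + 1 := by push_cast; ring
    rw [e] at h1
    exact h1
  have h3 : ((n : ℝ) - (k + 1)) / n * ((k + 1 : ℝ) / ((n : ℝ) - 1)) ≤
      ((n : ℝ) - (k + 1)) / n * gout k V x i :=
    mul_le_mul_of_nonneg_left h2 (div_nonneg (by linarith) n0.le)
  have h4 : (k + 1 : ℝ) / n * gin k V x i ≤
      (k + 1 : ℝ) / n - ((n : ℝ) - (k + 1)) / n * ((k + 1 : ℝ) / ((n : ℝ) - 1)) := by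
    linarith
  have h5 : (k + 1 : ℝ) / n - ((n : ℝ) - (k + 1)) / n * ((k + 1 : ℝ) / ((n : ℝ) - 1)) =
      (k + 1 : ℝ) / n * ((k : ℝ) / ((n : ℝ) - 1)) := by
    field_simp
    ring
  rw [h5] at h4
  exact le_of_mul_le_mul_left h4 (by positivity)

/-- In a minimal failing system the fraction `gout` of a nonnegative element is small. -/
theorem gout_nonneg_le {k n : ℕ} {V : Finset α} {x : α → ℝ} {i : α} (hV : V.card = n)
    (hi : i ∈ V) (hk1 : 1 ≤ k) (hn : k + 2 < n) (hgood : Good (n - 1) k)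
    (hx : 0 ≤ ∑ i ∈ V, x i)
    (hP : av (k + 1) V (nn x) ≤ (k + 1 : ℝ) / n) (hxi : 0 ≤ x i) :
    gout k V x i ≤ (k + 1 : ℝ) / ((n : ℝ) - 1) := by
  have h1 : (k : ℝ) / ((n : ℝ) - 1) ≤ gin k V x i :=
    cond_contain (k := k) hV hi hk1 (by omega) hgood hx hxi
  have htot := tot_eq (x := x) hi (k := k) (by omega)
  rw [hV] at htot
  have hnR : (k : ℝ) + 2 < n := by exact_mod_cast hn
  have hk : (0 : ℝ) ≤ k := Nat.cast_nonneg k
  have n0 : (0 : ℝ) < n := by linarith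
  have n1 : (0 : ℝ) < (n : ℝ) - 1 := by linarith
  have h3 : (k + 1 : ℝ) / n * ((k : ℝ) / ((n : ℝ) - 1)) ≤ (k + 1 : ℝ) / n * gin k V x i :=
    mul_le_mul_of_nonneg_left h1 (by positivity)
  have h4 : ((n : ℝ) - (k + 1)) / n * gout k V x i ≤
      (k + 1 : ℝ) / n - (k + 1 : ℝ) / n * ((k : ℝ) / ((n : ℝ) - 1)) := by
    linarith
  have h5 : (k + 1 : ℝ) / n - (k + 1 : ℝ) / n * ((k : ℝ) / ((n : ℝ) - 1)) =
      ((n : ℝ) - (k + 1)) / n * ((k + 1 : ℝ) / ((n : ℝ) - 1)) := by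
    field_simp
    ring
  rw [h5] at h4
  have h6 : 0 < ((n : ℝ) - (k + 1)) / n := div_pos (by linarith) n0
  exact le_of_mul_le_mul_left h4 h6

end Pool.Agent.MMS77
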